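import Mathlib

set_option autoImplicit false

/-!
# Symmetry groups of the `2R`-clusters of Delaunay sets

Elements all of whose rotation angles are smaller than 60 degrees.
The lemmas on the linear part `lin` and `finite_inter` are as in the library module
`Pool.Graph.R_seed8.H186R3.Del1`, `Del3`.
-/

namespace Pool.Agent.H39.Clu

open Metric Module

/-- A Delaunay set of type `(r, R)`: every open ball of radius `r` contains at most one point
of `X`, and every closed ball of radius `R` contains at least one point of `X`. -/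
structure IsDelaunay {d : ℕ} (r R : ℝ) (X : Set (EuclideanSpace ℝ (Fin d))) : Prop where
  pos : 0 < r
  le : r ≤ R
  packing : ∀ c : EuclideanSpace ℝ (Fin d), (ball c r ∩ X).Subsingleton
  covering : ∀ c : EuclideanSpace ℝ (Fin d), ∃ x ∈ X, x ∈ closedBall c R

/-- The `ρ`-cluster of `X` at `x`. -/
def cluster {d : ℕ} (X : Set (EuclideanSpace ℝ (Fin d))) (x : EuclideanSpace ℝ (Fin d)) (ρ : ℝ) :
    Set (EuclideanSpace ℝ (Fin d)) :=
  X ∩ closedBall x ρ

/-- All the `ρ`-clusters of `X` are congruent. -/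
def Congruent {d : ℕ} (X : Set (EuclideanSpace ℝ (Fin d))) (ρ : ℝ) : Prop :=
  ∀ x ∈ X, ∀ y ∈ X, ∃ g : EuclideanSpace ℝ (Fin d) ≃ᵢ EuclideanSpace ℝ (Fin d),
    g x = y ∧ g '' cluster X x ρ = cluster X y ρ

/-- The symmetry group `S_x(ρ)` of the `ρ`-cluster at `x`. -/
def Sym {d : ℕ} (X : Set (EuclideanSpace ℝ (Fin d))) (x : EuclideanSpace ℝ (Fin d)) (ρ : ℝ) :
    Subgroup (EuclideanSpace ℝ (Fin d) ≃ᵢ EuclideanSpace ℝ (Fin d)) where
  carrier := {g | g x = x ∧ g '' cluster X x ρ = cluster X x ρ}
  one_mem' := by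
    refine ⟨rfl, ?_⟩
    simp
  mul_mem' := by
    rintro g h ⟨hg1, hg2⟩ ⟨hh1, hh2⟩
    refine ⟨by rw [IsometryEquiv.mul_apply, hh1, hg1], ?_⟩
    have : (⇑(g * h) : EuclideanSpace ℝ (Fin d) → EuclideanSpace ℝ (Fin d)) = g ∘ h := by
      ext1 z
      rfl
    rw [this, Set.image_comp, hh2, hg2]
  inv_mem' := by
    rintro g ⟨hg1, hg2⟩
    refine ⟨?_, ?_⟩
    · apply g.injective
      rw [← IsometryEquiv.mul_apply, mul_inv_cancel, IsometryEquiv.coe_one, id, hg1]
    · conv_lhs => rw [← hg2]
      rw [← Set.image_comp]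
      have : ((⇑g⁻¹ : EuclideanSpace ℝ (Fin d) → EuclideanSpace ℝ (Fin d)) ∘ g) = id := by
        ext1 z
        change (g⁻¹ * g) z = z
        rw [inv_mul_cancel]
        rfl
      rw [this, Set.image_id]

section lin

variable {E : Type*} [NormedAddCommGroup E] [InnerProductSpace ℝ E]

/-- linear part of an isometry -/
noncomputable def lin (g : E ≃ᵢ E) : E ≃ₗᵢ[ℝ] E := g.toRealLinearIsometryEquiv

theorem lin_sub (g : E ≃ᵢ E) (z w : E) : lin g (z - w) = g z - g w := by
  have h1 : lin g z = g z - g 0 := g.toRealLinearIsometryEquiv_apply z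
  have h2 : lin g w = g w - g 0 := g.toRealLinearIsometryEquiv_apply w
  rw [map_sub, h1, h2]; abel

theorem lin_mul (g h : E ≃ᵢ E) (v : E) : lin (g * h) v = lin g (lin h v) := by
  have h1 : lin (g * h) v = (g * h) v - (g * h) 0 := by
    rw [← lin_sub, sub_zero]
  have h2 : lin h v = h v - h 0 := by rw [← lin_sub, sub_zero]
  rw [h1, h2, lin_sub, IsometryEquiv.mul_apply, IsometryEquiv.mul_apply]

theorem lin_one (v : E) : lin (1 : E ≃ᵢ E) v = v := by
  have : lin (1 : E ≃ᵢ E) v = (1 : E ≃ᵢ E) v - (1 : E ≃ᵢ E) 0 := by rw [← lin_sub, sub_zero]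
  rw [this, IsometryEquiv.coe_one, id, id, sub_zero]

theorem lin_inv_lin (g : E ≃ᵢ E) (v : E) : lin g⁻¹ (lin g v) = v := by
  rw [← lin_mul, inv_mul_cancel, lin_one]

theorem lin_lin_inv (g : E ≃ᵢ E) (v : E) : lin g (lin g⁻¹ v) = v := by
  have := lin_inv_lin g⁻¹ v
  rwa [inv_inv] at this

theorem apply_add {g : E ≃ᵢ E} {x : E} (hg : g x = x) (v : E) : g (x + v) = x + lin g v := by
  have h := lin_sub g (x + v) x
  rw [add_sub_cancel_left, hg] at h
  rw [h]
  abel

/-- all the rotation angles are smaller than 60 degrees -/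
def Near (g : E ≃ᵢ E) : Prop := ∀ v : E, v ≠ 0 → ‖lin g v - v‖ < ‖v‖

theorem Near.conj {n : E ≃ᵢ E} (hn : Near n) (g : E ≃ᵢ E) : Near (g * n * g⁻¹) := by
  intro v hv
  have h0 : lin g⁻¹ v ≠ 0 := by
    intro h
    apply hv
    have := lin_lin_inv g v
    rw [h, map_zero] at this
    exact this.symm
  have h1 := hn (lin g⁻¹ v) h0
  have h2 : lin (g * n * g⁻¹) v - v = lin g (lin n (lin g⁻¹ v) - lin g⁻¹ v) := by
    rw [map_sub, lin_lin_inv, lin_mul, lin_mul]
  rw [h2, LinearIsometryEquiv.norm_map]
  rwa [LinearIsometryEquiv.norm_map (lin g⁻¹) v] at h1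

/-- the independence of the two short differences -/
theorem indep {g : E ≃ᵢ E} (hg : Near g) {w : E} (hw : lin g w ≠ w) (s t : ℝ)
    (h : s • (lin g w - w) + t • (lin g⁻¹ w - w) = 0) : s = 0 ∧ t = 0 := by
  set v := lin g w - w with hv
  have hv0 : v ≠ 0 := sub_ne_zero.mpr hw
  have hq : lin g⁻¹ w - w = - lin g⁻¹ v := by
    rw [hv, map_sub, lin_inv_lin]
    abel
  have hnq : ‖lin g⁻¹ w - w‖ = ‖v‖ := by
    rw [hq, norm_neg, LinearIsometryEquiv.norm_map]
  have hvpos : 0 < ‖v‖ := norm_pos_iff.mpr hv0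
  have h1 : s • v = -(t • (lin g⁻¹ w - w)) := eq_neg_of_add_eq_zero_left h
  have h2 : |s| = |t| := by
    have h3 := congrArg norm h1
    rw [norm_neg, norm_smul, norm_smul, hnq] at h3
    have := mul_right_cancel₀ hvpos.ne' h3
    simpa [Real.norm_eq_abs] using this
  have key : s = 0 := by
    by_contra hs
    rcases abs_eq_abs.mp h2 with h3 | h3
    · -- the sum of the two vectors is zero
      have h4 : s • (v + (lin g⁻¹ w - w)) = 0 := by
        rw [smul_add]
        rw [← h3] at h
        exact h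
      rcases smul_eq_zero.mp h4 with h5 | h5
      · exact hs h5
      · have hA : ‖w + v‖ = ‖w‖ := by
          have : w + v = lin g w := by rw [hv]; abel
          rw [this, LinearIsometryEquiv.norm_map]
        have hB : ‖w - v‖ = ‖w‖ := by
          have : w - v = lin g⁻¹ w := by
            have h6 : lin g⁻¹ w - w = -v := eq_neg_of_add_eq_zero_right h5
            have h7 : lin g⁻¹ w = w + -v := by rw [← h6]; abel
            rw [h7]; abel
          rw [this, LinearIsometryEquiv.norm_map]
        have h8 := parallelogram_law_with_norm ℝ w v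
        rw [hA, hB] at h8
        nlinarith
    · -- the two vectors are equal
      have h4 : s • (v - (lin g⁻¹ w - w)) = 0 := by
        have h5 : t = -s := by rw [h3]; ring
        rw [h5] at h
        rw [smul_sub]
        rw [neg_smul] at h
        rw [sub_eq_add_neg]
        exact h
      rcases smul_eq_zero.mp h4 with h5 | h5
      · exact hs h5
      · have h6 : v = - lin g⁻¹ v := by
          rw [← hq]
          exact sub_eq_zero.mp h5
        have h7 : lin g v = - v := by
          have := congrArg (lin g) h6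
          rw [map_neg, lin_lin_inv] at this
          exact this
        have h8 := hg v hv0
        rw [h7] at h8
        have h9 : ‖-v - v‖ = 2 * ‖v‖ := by
          have : -v - v = (-2 : ℝ) • v := by
            rw [neg_smul, two_smul]; abel
          rw [this, norm_smul]
          simp
        rw [h9] at h8
        linarith
  refine ⟨key, ?_⟩
  rw [key, abs_zero] at h2
  exact abs_eq_zero.mp h2.symm

end lin

end Pool.Agent.H39.Clu
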