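import Pool.Agent.H39.Clu

set_option autoImplicit false

namespace Pool.Agent.H39.Clu

open Metric Module

section fin

variable {E : Type*} [NormedAddCommGroup E] [InnerProductSpace ℝ E] [FiniteDimensional ℝ E]

theorem finite_inter {X : Set E} {r : ℝ} (hr : 0 < r)
    (hsep : ∀ x ∈ X, ∀ y ∈ X, x ≠ y → r ≤ dist x y) (p : E) (L : ℝ) :
    (X ∩ closedBall p L).Finite := by
  by_contra hinf
  have hinf' : (X ∩ closedBall p L).Infinite := hinf
  have : ProperSpace E := FiniteDimensional.proper ℝ E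
  obtain ⟨a, _, ha⟩ := hinf'.exists_accPt_of_subset_isCompact (isCompact_closedBall p L)
    Set.inter_subset_right
  rw [accPt_iff_nhds] at ha
  obtain ⟨y, ⟨hy1, hy2⟩, hya⟩ := ha (ball a (r / 2)) (ball_mem_nhds a (by positivity))
  have hdy : 0 < dist y a := dist_pos.mpr hya
  obtain ⟨w, ⟨hw1, hw2⟩, hwa⟩ := ha (ball a (min (r / 2) (dist y a)))
    (ball_mem_nhds a (by positivity))
  have hyw : y ≠ w := by
    rintro rfl
    rw [mem_ball] at hw1
    exact absurd (lt_of_lt_of_le hw1 (min_le_right _ _)) (lt_irrefl _)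
  have h1 := hsep y hy2.1 w hw2.1 hyw
  have h2 := dist_triangle_right y w a
  rw [mem_ball] at hy1 hw1
  have h3 := lt_of_lt_of_le hw1 (min_le_left _ _)
  linarith

theorem exists_unit_orth (W : Submodule ℝ E) (hW : W ≠ ⊤) :
    ∃ n : E, ‖n‖ = 1 ∧ ∀ w ∈ W, inner ℝ w n = (0 : ℝ) := by
  have h1 : Wᗮ ≠ ⊥ := by
    intro h
    exact hW ((Submodule.orthogonal_eq_bot_iff).mp h)
  obtain ⟨v, hv, hv0⟩ := (Submodule.ne_bot_iff _).mp h1
  have hn : ‖v‖ ≠ 0 := norm_ne_zero_iff.mpr hv0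
  refine ⟨(‖v‖)⁻¹ • v, ?_, ?_⟩
  · rw [norm_smul, norm_inv, norm_norm, inv_mul_cancel₀ hn]
  · intro w hw
    rw [inner_smul_right, (Submodule.mem_orthogonal _ _).mp hv w hw, mul_zero]

end fin

variable {d : ℕ} {r R : ℝ} {X : Set (EuclideanSpace ℝ (Fin d))}

theorem IsDelaunay.sep (hX : IsDelaunay r R X) : ∀ x ∈ X, ∀ y ∈ X, x ≠ y → r ≤ dist x y := by
  intro x hx y hy hxy
  by_contra h
  push Not at h
  apply hxy
  exact hX.packing x ⟨mem_ball_self hX.pos, hx⟩ ⟨by rw [mem_ball, dist_comm]; exact h, hy⟩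

theorem IsDelaunay.finite (hX : IsDelaunay r R X) (p : EuclideanSpace ℝ (Fin d)) (L : ℝ) :
    (X ∩ closedBall p L).Finite := finite_inter hX.pos hX.sep p L

/-- an isometry which fixes `x` and all the points of the `2R`-cluster at `x` is trivial -/
theorem rigid (hX : IsDelaunay r R X) {x : EuclideanSpace ℝ (Fin d)}
    {g : EuclideanSpace ℝ (Fin d) ≃ᵢ EuclideanSpace ℝ (Fin d)} (hgx : g x = x)
    (hg : ∀ z ∈ cluster X x (2 * R), g z = z) : g = 1 := by
  let W : Submodule ℝ (EuclideanSpace ℝ (Fin d)) :=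
    { carrier := {v | lin g v = v}
      add_mem' := by
        intro a b ha hb
        simp only [Set.mem_ofPred_eq] at ha hb ⊢
        rw [map_add, ha, hb]
      zero_mem' := by simp
      smul_mem' := by
        intro c x hx
        simp only [Set.mem_ofPred_eq] at hx ⊢
        rw [map_smul, hx] }
  have hmem : ∀ v, v ∈ W ↔ lin g v = v := fun v => Iff.rfl
  have hW : W = ⊤ := by
    by_contra hW
    obtain ⟨n, hn, hn2⟩ := exists_unit_orth W hW
    -- points of the set beyond the closed ball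
    let B : Set (EuclideanSpace ℝ (Fin d)) := {z ∈ X ∩ closedBall x (2 * R + 1) | 2 * R < dist z x}
    have hB : B.Finite := (hX.finite x (2 * R + 1)).subset (fun z hz => hz.1)
    obtain ⟨δ, hδ0, hδ1, hδ⟩ : ∃ δ : ℝ, 0 < δ ∧ δ ≤ 1 ∧ ∀ z ∈ B, 2 * R + δ < dist z x := by
      rcases B.eq_empty_or_nonempty with h | h
      · refine ⟨1, one_pos, le_rfl, ?_⟩
        rw [h]
        intro z hz
        exact absurd hz (Set.notMem_empty z)
      · obtain ⟨b, hb, hbm⟩ := Set.exists_min_image B (fun z => dist z x) hB h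
        have h1 : 2 * R < dist b x := hb.2
        refine ⟨min 1 ((dist b x - 2 * R) / 2), lt_min one_pos (by linarith), min_le_left _ _, ?_⟩
        intro z hz
        have h2 := hbm z hz
        have h3 := min_le_right 1 ((dist b x - 2 * R) / 2)
        linarith
    obtain ⟨z, hz, hzd⟩ := hX.covering (x + (R + δ) • n)
    have hRpos : 0 < R := lt_of_lt_of_le hX.pos hX.le
    have h1 : ‖z - (x + (R + δ) • n)‖ ≤ R := by rw [← dist_eq_norm]; exact hzd
    have h2 : z - x = (z - (x + (R + δ) • n)) + (R + δ) • n := by abel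
    have h3 : dist z x ≤ 2 * R + δ := by
      rw [dist_eq_norm, h2]
      refine (norm_add_le _ _).trans ?_
      rw [norm_smul, hn, Real.norm_of_nonneg (by positivity)]
      linarith
    have h4 : δ ≤ inner ℝ (z - x) n := by
      rw [h2, inner_add_left, inner_smul_left, real_inner_self_eq_norm_sq, hn]
      have h3 := abs_real_inner_le_norm (z - (x + (R + δ) • n)) n
      rw [hn, mul_one] at h3
      have h4 := (abs_le.mp (h3.trans h1)).1
      simp
      linarith
    have h5 : dist z x ≤ 2 * R := by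
      by_contra h5
      push Not at h5
      have h6 : z ∈ B := ⟨⟨hz, by rw [mem_closedBall]; linarith⟩, h5⟩
      have := hδ z h6
      linarith
    have h6 : z - x ∈ W := by
      rw [hmem, lin_sub, hgx, hg z ⟨hz, h5⟩]
    have := hn2 _ h6
    linarith
  ext1 z
  have h1 : z - x ∈ W := by rw [hW]; trivial
  rw [hmem, lin_sub, hgx] at h1
  exact sub_left_injective h1

theorem Sym.fix {x : EuclideanSpace ℝ (Fin d)} {ρ : ℝ}
    {g : EuclideanSpace ℝ (Fin d) ≃ᵢ EuclideanSpace ℝ (Fin d)} (hg : g ∈ Sym X x ρ) : g x = x :=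
  hg.1

theorem Sym.maps {x : EuclideanSpace ℝ (Fin d)} {ρ : ℝ}
    {g : EuclideanSpace ℝ (Fin d) ≃ᵢ EuclideanSpace ℝ (Fin d)} (hg : g ∈ Sym X x ρ)
    {z : EuclideanSpace ℝ (Fin d)} (hz : z ∈ cluster X x ρ) : g z ∈ cluster X x ρ := by
  rw [← hg.2]
  exact Set.mem_image_of_mem _ hz

/-- the symmetry group of the `2R`-cluster is finite -/
theorem Sym.finite (hX : IsDelaunay r R X) (x : EuclideanSpace ℝ (Fin d)) :
    Finite (Sym X x (2 * R)) := by
  have : Finite (cluster X x (2 * R)) := hX.finite x (2 * R)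
  let f : Sym X x (2 * R) → (cluster X x (2 * R) → cluster X x (2 * R)) :=
    fun g z => ⟨g.1 z.1, Sym.maps g.2 z.2⟩
  apply Finite.of_injective f
  intro g h hgh
  have h1 : h.1⁻¹ * g.1 = 1 := by
    apply rigid hX (x := x)
    · rw [IsometryEquiv.mul_apply, Sym.fix g.2]
      exact Sym.fix (inv_mem h.2)
    · intro z hz
      have h2 : g.1 z = h.1 z := congrArg Subtype.val (congrFun hgh ⟨z, hz⟩)
      rw [IsometryEquiv.mul_apply, h2, ← IsometryEquiv.mul_apply, inv_mul_cancel]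
      rfl
  apply Subtype.ext
  exact (inv_mul_eq_one.mp h1).symm

/-- the elements of the cluster group all of whose rotation angles are smaller than 60 degrees -/
def Nr (X : Set (EuclideanSpace ℝ (Fin d))) (x : EuclideanSpace ℝ (Fin d)) (ρ : ℝ) :
    Set (EuclideanSpace ℝ (Fin d) ≃ᵢ EuclideanSpace ℝ (Fin d)) :=
  {g | g ∈ Sym X x ρ ∧ Near g}

/-- their common fixed space -/
noncomputable def Fx (X : Set (EuclideanSpace ℝ (Fin d))) (x : EuclideanSpace ℝ (Fin d)) (ρ : ℝ) :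
    Submodule ℝ (EuclideanSpace ℝ (Fin d)) where
  carrier := {v | ∀ g ∈ Nr X x ρ, lin g v = v}
  add_mem' := by
    intro a b ha hb g hg
    rw [map_add, ha g hg, hb g hg]
  zero_mem' := by
    intro g _
    rw [map_zero]
  smul_mem' := by
    intro c v hv g hg
    rw [map_smul, hv g hg]

theorem mem_Fx {x : EuclideanSpace ℝ (Fin d)} {ρ : ℝ} {v : EuclideanSpace ℝ (Fin d)} :
    v ∈ Fx X x ρ ↔ ∀ g ∈ Nr X x ρ, lin g v = v := Iff.rfl

/-- the pointwise stabilizer of the fixed space -/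
noncomputable def St (X : Set (EuclideanSpace ℝ (Fin d))) (x : EuclideanSpace ℝ (Fin d)) (ρ : ℝ) :
    Subgroup (EuclideanSpace ℝ (Fin d) ≃ᵢ EuclideanSpace ℝ (Fin d)) where
  carrier := {g | g ∈ Sym X x ρ ∧ ∀ v ∈ Fx X x ρ, lin g v = v}
  one_mem' := ⟨one_mem _, fun v _ => lin_one v⟩
  mul_mem' := by
    rintro g h ⟨hg1, hg2⟩ ⟨hh1, hh2⟩
    refine ⟨mul_mem hg1 hh1, ?_⟩
    intro v hv
    rw [lin_mul, hh2 v hv, hg2 v hv]
  inv_mem' := by
    rintro g ⟨hg1, hg2⟩
    refine ⟨inv_mem hg1, ?_⟩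
    intro v hv
    have h := lin_inv_lin g v
    rwa [hg2 v hv] at h

theorem Nr_sub_St {x : EuclideanSpace ℝ (Fin d)} {ρ : ℝ}
    {g : EuclideanSpace ℝ (Fin d) ≃ᵢ EuclideanSpace ℝ (Fin d)} (hg : g ∈ Nr X x ρ) :
    g ∈ St X x ρ := ⟨hg.1, fun _ hv => hv g hg⟩

theorem Fx_inv {x : EuclideanSpace ℝ (Fin d)} {ρ : ℝ}
    {g : EuclideanSpace ℝ (Fin d) ≃ᵢ EuclideanSpace ℝ (Fin d)} (hg : g ∈ Sym X x ρ)
    {v : EuclideanSpace ℝ (Fin d)} (hv : v ∈ Fx X x ρ) : lin g v ∈ Fx X x ρ := by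
  intro n hn
  have h1 : g⁻¹ * n * g ∈ Nr X x ρ := by
    refine ⟨mul_mem (mul_mem (inv_mem hg) hn.1) hg, ?_⟩
    have := hn.2.conj g⁻¹
    rwa [inv_inv] at this
  have h2 := hv _ h1
  rw [lin_mul, lin_mul] at h2
  have h3 := congrArg (lin g) h2
  rwa [lin_lin_inv] at h3

theorem St_normal {x : EuclideanSpace ℝ (Fin d)} {ρ : ℝ}
    {g h : EuclideanSpace ℝ (Fin d) ≃ᵢ EuclideanSpace ℝ (Fin d)} (hg : g ∈ Sym X x ρ)
    (hh : h ∈ St X x ρ) : g * h * g⁻¹ ∈ St X x ρ := by
  refine ⟨mul_mem (mul_mem hg hh.1) (inv_mem hg), ?_⟩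
  intro v hv
  rw [lin_mul, lin_mul, hh.2 _ (Fx_inv (inv_mem hg) hv), lin_lin_inv]

/-- the span of the differences to the points at distance less than `t` -/
noncomputable def Sp (X : Set (EuclideanSpace ℝ (Fin d))) (x : EuclideanSpace ℝ (Fin d)) (t : ℝ) :
    Submodule ℝ (EuclideanSpace ℝ (Fin d)) :=
  Submodule.span ℝ {v | ∃ z ∈ X, dist z x < t ∧ v = z - x}

/-- The main lemma: if there is a nontrivial element with all rotation angles smaller than 60
degrees then, for some radius `t`, the points at distance less than `t` span a subspace of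
dimension at least two of the common fixed space. -/
theorem two_le (hX : IsDelaunay r R X) (hc : Congruent X (2 * R))
    {x : EuclideanSpace ℝ (Fin d)} (hx : x ∈ X)
    {g0 : EuclideanSpace ℝ (Fin d) ≃ᵢ EuclideanSpace ℝ (Fin d)} (hg0 : g0 ∈ Nr X x (2 * R))
    (hne : g0 ≠ 1) :
    ∃ t ≤ 2 * R, 2 ≤ finrank ℝ (Sp X x t) ∧ Sp X x t ≤ Fx X x (2 * R) := by
  have hRpos : 0 < R := lt_of_lt_of_le hX.pos hX.le
  let P : Set (EuclideanSpace ℝ (Fin d)) :=
    {z | z ∈ cluster X x (2 * R) ∧ ∃ g ∈ Nr X x (2 * R), g z ≠ z}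
  have hPfin : P.Finite := (hX.finite x (2 * R)).subset (fun z hz => hz.1)
  have hPne : P.Nonempty := by
    by_contra h
    apply hne
    apply rigid hX (Sym.fix hg0.1)
    intro z hz
    by_contra h2
    exact h ⟨z, hz, g0, hg0, h2⟩
  obtain ⟨y, ⟨hyC, g, hg, hgy⟩, hmin⟩ := Set.exists_min_image P (fun z => dist z x) hPfin hPne
  obtain ⟨φ, hφx, hφ⟩ := hc x hx y hyC.1
  have hyR : dist y x ≤ 2 * R := by
    have := hyC.2
    rwa [mem_closedBall] at this
  have hSF : Sp X x (dist y x) ≤ Fx X x (2 * R) := by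
    refine Submodule.span_le.mpr ?_
    rintro v ⟨z, hz, hzd, rfl⟩
    intro h hh
    rw [lin_sub, Sym.fix hh.1]
    congr 1
    by_contra h3
    have h4 := hmin z ⟨⟨hz, by rw [mem_closedBall]; linarith⟩, h, hh, h3⟩
    linarith
  -- points close to `y` come from points close to `x`
  have key : ∀ q ∈ X, dist q y < dist y x → ∃ a : EuclideanSpace ℝ (Fin d),
      a - x ∈ Sp X x (dist y x) ∧ lin φ (a - x) = q - y := by
    intro q hq hqd
    have h1 : q ∈ cluster X y (2 * R) := by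
      refine ⟨hq, ?_⟩
      rw [mem_closedBall]
      linarith
    rw [← hφ] at h1
    obtain ⟨a, ha, haq⟩ := h1
    have h2 : dist a x = dist q y := by
      rw [← haq, ← hφx, φ.dist_eq]
    refine ⟨a, Submodule.subset_span ⟨a, ha.1, by rw [h2]; exact hqd, rfl⟩, ?_⟩
    rw [lin_sub, haq, hφx]
  set w := y - x with hw
  have hgw : lin g w = g y - x := by rw [hw, lin_sub, Sym.fix hg.1]
  have hgw' : lin g w ≠ w := by
    rw [hgw]
    intro h
    exact hgy (sub_left_injective h)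
  have hw0 : w ≠ 0 := by
    intro h
    rw [h, map_zero] at hgw'
    exact hgw' rfl
  have hd1 : g y - y = lin g w - w := by rw [hgw, hw]; abel
  have hinv : g⁻¹ ∈ Sym X x (2 * R) := inv_mem hg.1
  have hd2 : g⁻¹ y - y = lin g⁻¹ w - w := by
    have : lin g⁻¹ w = g⁻¹ y - x := by rw [hw, lin_sub, Sym.fix hinv]
    rw [this, hw]; abel
  have hn1 : dist (g y) y < dist y x := by
    rw [dist_eq_norm, dist_eq_norm, hd1]
    exact hg.2 w hw0
  have hn2 : dist (g⁻¹ y) y < dist y x := by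
    have : dist (g⁻¹ y) y = dist (g y) y := by
      rw [← g.dist_eq (g⁻¹ y) y, ← IsometryEquiv.mul_apply, mul_inv_cancel, dist_comm]
      rfl
    rw [this]
    exact hn1
  obtain ⟨a, ha, haq⟩ := key (g y) (Sym.maps hg.1 hyC).1 hn1
  obtain ⟨b, hb, hbq⟩ := key (g⁻¹ y) (Sym.maps hinv hyC).1 hn2
  refine ⟨dist y x, hyR, ?_, hSF⟩
  have hli : LinearIndependent ℝ ![(⟨a - x, ha⟩ : Sp X x (dist y x)), ⟨b - x, hb⟩] := by
    rw [LinearIndependent.pair_iff]
    intro s t hst
    have h1 : s • (a - x) + t • (b - x) = 0 := by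
      have := congrArg Subtype.val hst
      simpa using this
    have h2 := congrArg (lin φ) h1
    rw [map_add, map_smul, map_smul, haq, hbq, map_zero, hd1, hd2] at h2
    exact indep hg.2 hgw' s t h2
  simpa using hli.fintype_card_le_finrank

/-- the common fixed space has codimension at least two -/
theorem codim {x : EuclideanSpace ℝ (Fin d)} {ρ : ℝ}
    {g : EuclideanSpace ℝ (Fin d) ≃ᵢ EuclideanSpace ℝ (Fin d)} (hg : g ∈ Nr X x ρ)
    (hne : g ≠ 1) : finrank ℝ (Fx X x ρ) + 2 ≤ d := by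
  obtain ⟨w, hw⟩ : ∃ w, lin g w ≠ w := by
    by_contra h
    push Not at h
    apply hne
    ext1 z
    have h1 := h (z - x)
    rw [lin_sub, Sym.fix hg.1] at h1
    exact sub_left_injective h1
  have horth : ∀ u ∈ Fx X x ρ, ∀ h ∈ Nr X x ρ, inner ℝ u (lin h w - w) = (0 : ℝ) := by
    intro u hu h hh
    have h1 : inner ℝ u (lin h w) = inner ℝ u w := by
      conv_lhs => rw [← hu h hh]
      exact LinearIsometryEquiv.inner_map_map _ _ _
    rw [inner_sub_right, h1, sub_self]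
  have hinv : g⁻¹ ∈ Nr X x ρ := by
    refine ⟨inv_mem hg.1, ?_⟩
    intro v hv
    have h1 : lin g⁻¹ v - v = - lin g⁻¹ (lin g v - v) := by
      rw [map_sub, lin_inv_lin]
      abel
    rw [h1, norm_neg, LinearIsometryEquiv.norm_map]
    exact hg.2 v hv
  have ha : lin g w - w ∈ (Fx X x ρ)ᗮ := (Submodule.mem_orthogonal _ _).mpr
    (fun u hu => horth u hu g hg)
  have hb : lin g⁻¹ w - w ∈ (Fx X x ρ)ᗮ := (Submodule.mem_orthogonal _ _).mpr
    (fun u hu => horth u hu _ hinv)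
  have hli : LinearIndependent ℝ ![(⟨lin g w - w, ha⟩ : (Fx X x ρ)ᗮ), ⟨lin g⁻¹ w - w, hb⟩] := by
    rw [LinearIndependent.pair_iff]
    intro s t hst
    have h1 : s • (lin g w - w) + t • (lin g⁻¹ w - w) = 0 := by
      have := congrArg Subtype.val hst
      simpa using this
    exact indep hg.2 hw s t h1
  have h2 : 2 ≤ finrank ℝ (Fx X x ρ)ᗮ := by simpa using hli.fintype_card_le_finrank
  have h3 := Submodule.finrank_add_finrank_orthogonal (Fx X x ρ)
  rw [finrank_euclideanSpace_fin] at h3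
  omega

end Pool.Agent.H39.Clu
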