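import Pool.Agent.H39.Clu2

set_option autoImplicit false

namespace Pool.Agent.H39.Clu

open Metric Module

variable {d : ℕ} {r R : ℝ} {X : Set (EuclideanSpace ℝ (Fin d))}

/-- the matrix entries of the linear part -/
noncomputable def ent (g : EuclideanSpace ℝ (Fin d) ≃ᵢ EuclideanSpace ℝ (Fin d)) (i j : Fin d) : ℝ :=
  lin g (EuclideanSpace.single j (1 : ℝ)) i

theorem abs_ent (g : EuclideanSpace ℝ (Fin d) ≃ᵢ EuclideanSpace ℝ (Fin d)) (i j : Fin d) :
    |ent g i j| ≤ 1 := by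
  have h1 : ‖lin g (EuclideanSpace.single j (1 : ℝ))‖ = 1 := by
    rw [LinearIsometryEquiv.norm_map]
    simp
  have h2 := PiLp.norm_apply_le (lin g (EuclideanSpace.single j (1 : ℝ))) i
  rw [h1, Real.norm_eq_abs] at h2
  exact h2

theorem apply_eq (g : EuclideanSpace ℝ (Fin d) ≃ᵢ EuclideanSpace ℝ (Fin d))
    (v : EuclideanSpace ℝ (Fin d)) (i : Fin d) : lin g v i = ∑ j, v j * ent g i j := by
  have hv : v = ∑ j, v j • EuclideanSpace.single j (1 : ℝ) := by
    ext k
    simp [Finset.sum_apply, Pi.single_apply]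
  conv_lhs => rw [hv]
  rw [map_sum]
  simp [ent, Finset.sum_apply]

/-- the cell of an isometry -/
noncomputable def cell (g : EuclideanSpace ℝ (Fin d) ≃ᵢ EuclideanSpace ℝ (Fin d)) :
    Fin d → Fin d → Fin (2 * d + 1) := fun i j =>
  ⟨(⌊(d : ℝ) * ent g i j⌋ + d).toNat, by
    have h1 := (abs_le.mp (abs_ent g i j)).2
    have h2 : ⌊(d : ℝ) * ent g i j⌋ ≤ d := by
      have h3 : (d : ℝ) * ent g i j ≤ ((d : ℤ) : ℝ) := by
        push_cast
        have : (0 : ℝ) ≤ d := Nat.cast_nonneg d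
        nlinarith
      exact_mod_cast (Int.floor_le _).trans h3
    omega⟩

theorem cell_close {g h : EuclideanSpace ℝ (Fin d) ≃ᵢ EuclideanSpace ℝ (Fin d)}
    (hgh : cell g = cell h) (i j : Fin d) : (d : ℝ) * |ent g i j - ent h i j| < 1 := by
  have h0 : (0 : ℝ) ≤ d := Nat.cast_nonneg d
  have lo : ∀ k : EuclideanSpace ℝ (Fin d) ≃ᵢ EuclideanSpace ℝ (Fin d),
      -(d : ℤ) ≤ ⌊(d : ℝ) * ent k i j⌋ := by
    intro k
    rw [Int.le_floor]
    push_cast
    have := (abs_le.mp (abs_ent k i j)).1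
    nlinarith
  have h1 : (⌊(d : ℝ) * ent g i j⌋ + d).toNat = (⌊(d : ℝ) * ent h i j⌋ + d).toNat := by
    have := congrArg Fin.val (congrFun (congrFun hgh i) j)
    exact this
  have h2 : ⌊(d : ℝ) * ent g i j⌋ = ⌊(d : ℝ) * ent h i j⌋ := by
    have h3 := lo g
    have h4 := lo h
    omega
  have h3 := Int.abs_sub_lt_one_of_floor_eq_floor h2
  rw [← mul_sub, abs_mul, abs_of_nonneg h0] at h3
  exact h3

theorem close {g h : EuclideanSpace ℝ (Fin d) ≃ᵢ EuclideanSpace ℝ (Fin d)}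
    (hgh : cell g = cell h) {v : EuclideanSpace ℝ (Fin d)} (hv : v ≠ 0) :
    ‖lin g v - lin h v‖ < ‖v‖ := by
  have hd : 0 < d := by
    rcases Nat.eq_zero_or_pos d with h0 | h0
    · subst h0
      exact absurd (Subsingleton.elim v 0) hv
    · exact h0
  have hd' : (0 : ℝ) < d := Nat.cast_pos.mpr hd
  have hv2 : 0 < ∑ j, v j ^ 2 := by
    have h1 : 0 < ‖v‖ ^ 2 := by positivity
    rw [EuclideanSpace.norm_sq_eq] at h1
    simpa using h1
  have hrow : ∀ i : Fin d, (lin g v i - lin h v i) ^ 2 < (1 / (d : ℝ)) * ∑ j, v j ^ 2 := by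
    intro i
    have h1 : lin g v i - lin h v i = ∑ j, v j * (ent g i j - ent h i j) := by
      rw [apply_eq, apply_eq, ← Finset.sum_sub_distrib]
      refine Finset.sum_congr rfl ?_
      intro j _
      ring
    have h2 : (∑ j, v j * (ent g i j - ent h i j)) ^ 2 ≤
        (∑ j, v j ^ 2) * ∑ j, (ent g i j - ent h i j) ^ 2 := Finset.sum_mul_sq_le_sq_mul_sq _ _ _
    have h3 : ∑ j, (ent g i j - ent h i j) ^ 2 < 1 / (d : ℝ) := by
      have h4 : ∀ j ∈ (Finset.univ : Finset (Fin d)),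
          (ent g i j - ent h i j) ^ 2 < (1 / (d : ℝ)) ^ 2 := by
        intro j _
        rw [← sq_abs]
        have h5 := cell_close hgh i j
        have h6 : |ent g i j - ent h i j| < 1 / (d : ℝ) := by
          rw [lt_div_iff₀ hd', mul_comm]
          exact h5
        exact pow_lt_pow_left₀ h6 (abs_nonneg _) two_ne_zero
      have hne : (Finset.univ : Finset (Fin d)).Nonempty := ⟨i, Finset.mem_univ i⟩
      have h5 := Finset.sum_lt_sum_of_nonempty hne h4
      rw [Finset.sum_const, Finset.card_univ, Fintype.card_fin, nsmul_eq_mul] at h5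
      have h6 : (d : ℝ) * (1 / (d : ℝ)) ^ 2 = 1 / (d : ℝ) := by
        field_simp
      rwa [h6] at h5
    rw [h1]
    calc _ ≤ (∑ j, v j ^ 2) * ∑ j, (ent g i j - ent h i j) ^ 2 := h2
      _ < (∑ j, v j ^ 2) * (1 / (d : ℝ)) := by
          exact mul_lt_mul_of_pos_left h3 hv2
      _ = _ := by ring
  have hne : (Finset.univ : Finset (Fin d)).Nonempty := ⟨⟨0, hd⟩, Finset.mem_univ _⟩
  have h1 := Finset.sum_lt_sum_of_nonempty hne (fun i _ => hrow i)
  rw [Finset.sum_const, Finset.card_univ, Fintype.card_fin, nsmul_eq_mul, ← mul_assoc,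
    mul_one_div_cancel hd'.ne', one_mul] at h1
  have h2 : ‖lin g v - lin h v‖ ^ 2 < ‖v‖ ^ 2 := by
    rw [EuclideanSpace.norm_sq_eq, EuclideanSpace.norm_sq_eq]
    simpa using h1
  exact lt_of_pow_lt_pow_left₀ 2 (norm_nonneg _) h2

theorem near_of_cell {g h : EuclideanSpace ℝ (Fin d) ≃ᵢ EuclideanSpace ℝ (Fin d)}
    (hgh : cell g = cell h) : Near (h⁻¹ * g) := by
  intro v hv
  have h1 : lin (h⁻¹ * g) v - v = lin h⁻¹ (lin g v - lin h v) := by
    rw [map_sub, lin_inv_lin, lin_mul]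
  rw [h1, LinearIsometryEquiv.norm_map]
  exact close hgh hv

/-- counting: a subgroup `K` and a subgroup `L` which contains the quotients of the elements of `K`
in the same cell -/
theorem count (K L : Subgroup (EuclideanSpace ℝ (Fin d) ≃ᵢ EuclideanSpace ℝ (Fin d)))
    [Finite L] (h : ∀ g ∈ K, ∀ k ∈ K, cell g = cell k → k⁻¹ * g ∈ L) :
    Nat.card K ≤ (2 * d + 1) ^ (d ^ 2) * Nat.card L := by
  classical
  let s : (Fin d → Fin d → Fin (2 * d + 1)) → K := fun c =>
    if hc : ∃ k : K, cell k.1 = c then hc.choose else 1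
  have hs : ∀ g : K, cell (s (cell g.1)).1 = cell g.1 := by
    intro g
    have hc : ∃ k : K, cell k.1 = cell g.1 := ⟨g, rfl⟩
    have : s (cell g.1) = hc.choose := dif_pos hc
    rw [this]
    exact hc.choose_spec
  let f : K → (Fin d → Fin d → Fin (2 * d + 1)) × L := fun g =>
    (cell g.1, ⟨(s (cell g.1)).1⁻¹ * g.1, h g.1 g.2 _ (s (cell g.1)).2 (hs g).symm⟩)
  have hf : Function.Injective f := by
    intro g k hgk
    have h1 : cell g.1 = cell k.1 := congrArg Prod.fst hgk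
    have h2 : (s (cell g.1)).1⁻¹ * g.1 = (s (cell k.1)).1⁻¹ * k.1 :=
      congrArg (fun p => (Prod.snd p).1) hgk
    rw [h1] at h2
    exact Subtype.ext (mul_left_cancel h2)
  have h1 := Nat.card_le_card_of_injective f hf
  rw [Nat.card_prod] at h1
  have h2 : Nat.card (Fin d → Fin d → Fin (2 * d + 1)) = (2 * d + 1) ^ (d ^ 2) := by
    simp [Nat.card_eq_fintype_card, ← pow_mul, sq]
  rwa [h2] at h1

end Pool.Agent.H39.Clu
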