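import Pool.Agent.H39.Clu3

set_option autoImplicit false

namespace Pool.Agent.H39.Clu

open Metric Module

variable {d : ℕ} {r R : ℝ} {X : Set (EuclideanSpace ℝ (Fin d))}

/-- `φ` maps the cluster at `x` onto the cluster at `y` -/
def Cg (X : Set (EuclideanSpace ℝ (Fin d))) (ρ : ℝ)
    (φ : EuclideanSpace ℝ (Fin d) ≃ᵢ EuclideanSpace ℝ (Fin d)) (x y : EuclideanSpace ℝ (Fin d)) :
    Prop := φ x = y ∧ φ '' cluster X x ρ = cluster X y ρ

theorem Cg.inv {ρ : ℝ} {φ : EuclideanSpace ℝ (Fin d) ≃ᵢ EuclideanSpace ℝ (Fin d)}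
    {x y : EuclideanSpace ℝ (Fin d)} (h : Cg X ρ φ x y) : Cg X ρ φ⁻¹ y x := by
  obtain ⟨h1, h2⟩ := h
  refine ⟨?_, ?_⟩
  · apply φ.injective
    rw [← IsometryEquiv.mul_apply, mul_inv_cancel, IsometryEquiv.coe_one, id, h1]
  · conv_lhs => rw [← h2]
    rw [← Set.image_comp]
    have : ((⇑φ⁻¹ : EuclideanSpace ℝ (Fin d) → EuclideanSpace ℝ (Fin d)) ∘ φ) = id := by
      ext1 z
      change (φ⁻¹ * φ) z = z
      rw [inv_mul_cancel]
      rfl
    rw [this, Set.image_id]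

theorem Cg.comp {ρ : ℝ} {φ ψ : EuclideanSpace ℝ (Fin d) ≃ᵢ EuclideanSpace ℝ (Fin d)}
    {x y z : EuclideanSpace ℝ (Fin d)} (h : Cg X ρ φ x y) (h' : Cg X ρ ψ y z) :
    Cg X ρ (ψ * φ) x z := by
  refine ⟨by rw [IsometryEquiv.mul_apply, h.1, h'.1], ?_⟩
  have : (⇑(ψ * φ) : EuclideanSpace ℝ (Fin d) → EuclideanSpace ℝ (Fin d)) = ψ ∘ φ := by
    ext1 z
    rfl
  rw [this, Set.image_comp, h.2, h'.2]

theorem Cg.conj {ρ : ℝ} {φ g : EuclideanSpace ℝ (Fin d) ≃ᵢ EuclideanSpace ℝ (Fin d)}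
    {x y : EuclideanSpace ℝ (Fin d)} (h : Cg X ρ φ x y) (hg : g ∈ Sym X x ρ) :
    φ * g * φ⁻¹ ∈ Sym X y ρ := by
  have hg' : Cg X ρ g x x := hg
  have h1 : Cg X ρ (φ * (g * φ⁻¹)) y y := (h.inv.comp hg').comp h
  rw [← mul_assoc] at h1
  exact h1

theorem Cg.conjNr {ρ : ℝ} {φ g : EuclideanSpace ℝ (Fin d) ≃ᵢ EuclideanSpace ℝ (Fin d)}
    {x y : EuclideanSpace ℝ (Fin d)} (h : Cg X ρ φ x y) (hg : g ∈ Nr X x ρ) :
    φ * g * φ⁻¹ ∈ Nr X y ρ := ⟨h.conj hg.1, hg.2.conj φ⟩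

theorem Cg.mapFx {ρ : ℝ} {φ : EuclideanSpace ℝ (Fin d) ≃ᵢ EuclideanSpace ℝ (Fin d)}
    {x y : EuclideanSpace ℝ (Fin d)} (h : Cg X ρ φ x y) {v : EuclideanSpace ℝ (Fin d)}
    (hv : v ∈ Fx X x ρ) : lin φ v ∈ Fx X y ρ := by
  intro n hn
  have h1 := h.inv.conjNr hn
  rw [inv_inv] at h1
  have h2 := hv _ h1
  rw [lin_mul, lin_mul] at h2
  have h3 := congrArg (lin φ) h2
  rwa [lin_lin_inv] at h3

theorem Cg.mapOrth {ρ : ℝ} {φ : EuclideanSpace ℝ (Fin d) ≃ᵢ EuclideanSpace ℝ (Fin d)}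
    {x y : EuclideanSpace ℝ (Fin d)} (h : Cg X ρ φ x y) {v : EuclideanSpace ℝ (Fin d)}
    (hv : v ∈ (Fx X x ρ)ᗮ) : lin φ v ∈ (Fx X y ρ)ᗮ := by
  rw [Submodule.mem_orthogonal] at hv ⊢
  intro u hu
  have h1 := hv _ (h.inv.mapFx hu)
  have h2 : inner ℝ (lin φ (lin φ⁻¹ u)) (lin φ v) = inner ℝ (lin φ⁻¹ u) v :=
    LinearIsometryEquiv.inner_map_map _ _ _
  rw [lin_lin_inv] at h2
  rw [h2, h1]

theorem Cg.finrank_le {ρ : ℝ} {φ : EuclideanSpace ℝ (Fin d) ≃ᵢ EuclideanSpace ℝ (Fin d)}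
    {x y : EuclideanSpace ℝ (Fin d)} (h : Cg X ρ φ x y) :
    finrank ℝ (Fx X x ρ) ≤ finrank ℝ (Fx X y ρ) := by
  have h1 : (Fx X x ρ).map (lin φ).toLinearEquiv.toLinearMap ≤ Fx X y ρ := by
    rintro _ ⟨v, hv, rfl⟩
    exact h.mapFx hv
  have h2 := Submodule.finrank_mono h1
  rwa [LinearEquiv.finrank_map_eq] at h2

theorem Cg.card_le {φ : EuclideanSpace ℝ (Fin d) ≃ᵢ EuclideanSpace ℝ (Fin d)}
    (hX : IsDelaunay r R X)
    {x y : EuclideanSpace ℝ (Fin d)} (h : Cg X (2 * R) φ x y) :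
    Nat.card (St X x (2 * R)) ≤ Nat.card (St X y (2 * R)) := by
  have hfin : Finite (Sym X y (2 * R)) := Sym.finite hX y
  have hfinSt : Finite (St X y (2 * R)) :=
    Finite.of_injective (fun g : St X y (2 * R) => (⟨g.1, g.2.1⟩ : Sym X y (2 * R)))
      (fun g h hgh => Subtype.ext (congrArg (fun s : Sym X y (2 * R) => s.1) hgh))
  have hmem : ∀ g ∈ St X x (2 * R), φ * g * φ⁻¹ ∈ St X y (2 * R) := by
    intro g hg
    refine ⟨h.conj hg.1, ?_⟩
    intro v hv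
    rw [lin_mul, lin_mul, hg.2 _ (h.inv.mapFx hv), lin_lin_inv]
  apply Nat.card_le_card_of_injective
    (fun g : St X x (2 * R) => (⟨φ * g.1 * φ⁻¹, hmem g.1 g.2⟩ : St X y (2 * R)))
  intro g k hgk
  have h1 : φ * g.1 * φ⁻¹ = φ * k.1 * φ⁻¹ := congrArg (fun s : St X y (2 * R) => s.1) hgk
  exact Subtype.ext (mul_left_cancel (mul_right_cancel h1))

/-- the fixed space of a nontrivial element with small angles -/
theorem fix_mem {X : Set (EuclideanSpace ℝ (Fin 4))} {ρ : ℝ} {x : EuclideanSpace ℝ (Fin 4)}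
    {g : EuclideanSpace ℝ (Fin 4) ≃ᵢ EuclideanSpace ℝ (Fin 4)} (hg : g ∈ Nr X x ρ) (hne : g ≠ 1)
    (h2 : finrank ℝ (Fx X x ρ) = 2) {v : EuclideanSpace ℝ (Fin 4)} (hv : lin g v = v) :
    v ∈ Fx X x ρ := by
  obtain ⟨w, hw⟩ : ∃ w, lin g w ≠ w := by
    by_contra h
    push Not at h
    apply hne
    ext1 z
    have h1 := h (z - x)
    rw [lin_sub, Sym.fix hg.1] at h1
    exact sub_left_injective h1
  let Q : Submodule ℝ (EuclideanSpace ℝ (Fin 4)) :=
    { carrier := {v | lin g v = v}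
      add_mem' := by
        intro a b ha hb
        simp only [Set.mem_ofPred_eq] at ha hb ⊢
        rw [map_add, ha, hb]
      zero_mem' := by simp
      smul_mem' := by
        intro c x hx
        simp only [Set.mem_ofPred_eq] at hx ⊢
        rw [map_smul, hx] }
  have hmem : ∀ v, v ∈ Q ↔ lin g v = v := fun v => Iff.rfl
  have ha : lin g w - w ∈ Qᗮ := by
    rw [Submodule.mem_orthogonal]
    intro u hu
    have h1 : inner ℝ u (lin g w) = inner ℝ u w := by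
      conv_lhs => rw [← (hmem u).mp hu]
      exact LinearIsometryEquiv.inner_map_map _ _ _
    rw [inner_sub_right, h1, sub_self]
  have hb : lin g⁻¹ w - w ∈ Qᗮ := by
    rw [Submodule.mem_orthogonal]
    intro u hu
    have hu' : lin g⁻¹ u = u := by
      have := lin_inv_lin g u
      rwa [(hmem u).mp hu] at this
    have h1 : inner ℝ u (lin g⁻¹ w) = inner ℝ u w := by
      conv_lhs => rw [← hu']
      exact LinearIsometryEquiv.inner_map_map _ _ _
    rw [inner_sub_right, h1, sub_self]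
  have hli : LinearIndependent ℝ ![(⟨lin g w - w, ha⟩ : Qᗮ), ⟨lin g⁻¹ w - w, hb⟩] := by
    rw [LinearIndependent.pair_iff]
    intro s t hst
    have h1 : s • (lin g w - w) + t • (lin g⁻¹ w - w) = 0 := by
      have := congrArg Subtype.val hst
      simpa using this
    exact indep hg.2 hw s t h1
  have h3 : 2 ≤ finrank ℝ Qᗮ := by simpa using hli.fintype_card_le_finrank
  have h4 := Submodule.finrank_add_finrank_orthogonal Q
  rw [finrank_euclideanSpace_fin] at h4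
  have h5 : Fx X x ρ ≤ Q := fun u hu => hu g hg
  have h6 : Fx X x ρ = Q := by
    apply Submodule.eq_of_le_of_finrank_le h5
    omega
  rw [h6]
  exact hv

/-- an element with small angles which moves a point by less than `t` -/
theorem orth_of {X : Set (EuclideanSpace ℝ (Fin 4))} {t : ℝ}
    (h2 : ∀ x ∈ X, finrank ℝ (Fx X x (2 * R)) = 2)
    (hnear : ∀ x ∈ X, ∀ z ∈ X, dist z x < t → z - x ∈ Fx X x (2 * R))
    {x q : EuclideanSpace ℝ (Fin 4)} (hx : x ∈ X) (hqC : q ∈ cluster X x (2 * R))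
    {k : EuclideanSpace ℝ (Fin 4) ≃ᵢ EuclideanSpace ℝ (Fin 4)} (hkN : k ∈ Nr X x (2 * R))
    (hkq : k q ≠ q) (hd : dist (k q) q < t) :
    Fx X q (2 * R) = (Fx X x (2 * R))ᗮ := by
  have hqX : q ∈ X := hqC.1
  have hkx : k x = x := Sym.fix hkN.1
  set w := q - x with hw
  have hlw : lin k w = k q - x := by rw [hw, lin_sub, hkx]
  have hlw' : lin k w ≠ w := by
    rw [hlw]
    intro h
    exact hkq (sub_left_injective h)
  have hw0 : w ≠ 0 := by
    intro h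
    rw [h, map_zero] at hlw'
    exact hlw' rfl
  have hinvN : k⁻¹ ∈ Nr X x (2 * R) := by
    refine ⟨inv_mem hkN.1, ?_⟩
    intro v hv
    have h1 : lin k⁻¹ v - v = - lin k⁻¹ (lin k v - v) := by
      rw [map_sub, lin_inv_lin]
      abel
    rw [h1, norm_neg, LinearIsometryEquiv.norm_map]
    exact hkN.2 v hv
  have hd2 : dist (k⁻¹ q) q < t := by
    have : dist (k⁻¹ q) q = dist (k q) q := by
      rw [← k.dist_eq (k⁻¹ q) q, ← IsometryEquiv.mul_apply, mul_inv_cancel, dist_comm]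
      rfl
    rw [this]
    exact hd
  have hmemF : ∀ n ∈ Nr X x (2 * R), dist (n q) q < t → lin n w - w ∈ Fx X q (2 * R) := by
    intro n hn hnd
    have h3 : n q ∈ X := (Sym.maps hn.1 hqC).1
    have h4 : n q - q = lin n w - w := by
      have : lin n w = n q - x := by rw [hw, lin_sub, Sym.fix hn.1]
      rw [this, hw]
      abel
    rw [← h4]
    exact hnear q hqX _ h3 hnd
  have horth : ∀ n ∈ Nr X x (2 * R), lin n w - w ∈ (Fx X x (2 * R))ᗮ := by
    intro n hn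
    rw [Submodule.mem_orthogonal]
    intro u hu
    have h1 : inner ℝ u (lin n w) = inner ℝ u w := by
      conv_lhs => rw [← hu n hn]
      exact LinearIsometryEquiv.inner_map_map _ _ _
    rw [inner_sub_right, h1, sub_self]
  -- both spaces have dimension two and share two independent vectors
  obtain ⟨I, hI⟩ : ∃ I, I = Fx X q (2 * R) ⊓ (Fx X x (2 * R))ᗮ := ⟨_, rfl⟩
  have ha : lin k w - w ∈ I := by
    rw [hI]
    exact ⟨hmemF k hkN hd, horth k hkN⟩
  have hb : lin k⁻¹ w - w ∈ I := by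
    rw [hI]
    exact ⟨hmemF _ hinvN hd2, horth _ hinvN⟩
  have hli : LinearIndependent ℝ ![(⟨lin k w - w, ha⟩ : I), ⟨lin k⁻¹ w - w, hb⟩] := by
    rw [LinearIndependent.pair_iff]
    intro s t hst
    have h1 : s • (lin k w - w) + t • (lin k⁻¹ w - w) = 0 := by
      have := congrArg Subtype.val hst
      simpa using this
    exact indep hkN.2 hlw' s t h1
  have h3 : 2 ≤ finrank ℝ I := by simpa using hli.fintype_card_le_finrank
  have h4 := Submodule.finrank_add_finrank_orthogonal (Fx X x (2 * R))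
  rw [finrank_euclideanSpace_fin, h2 x hx] at h4
  have h5 : I = Fx X q (2 * R) := by
    apply Submodule.eq_of_le_of_finrank_le
    · rw [hI]; exact inf_le_left
    · rw [h2 q hqX]
      exact h3
  have h6 : I = (Fx X x (2 * R))ᗮ := by
    apply Submodule.eq_of_le_of_finrank_le
    · rw [hI]; exact inf_le_right
    · omega
  rw [← h5, h6]

/-- The data of a Delaunay set in `E^4` with congruent `2R`-clusters and a nontrivial symmetry
with small angles. -/
structure Data (X : Set (EuclideanSpace ℝ (Fin 4))) (R t a ρ : ℝ)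
    (P : EuclideanSpace ℝ (Fin 4) → EuclideanSpace ℝ (Fin 4)) : Prop where
  tpos : 0 < t
  tle : t ≤ 2 * R
  rpos : 0 < ρ
  anon : 0 ≤ a
  sq : a ^ 2 + ρ ^ 2 = t ^ 2
  two : ∀ x ∈ X, finrank ℝ (Fx X x (2 * R)) = 2
  near : ∀ x ∈ X, ∀ z ∈ X, dist z x < t → z - x ∈ Fx X x (2 * R)
  mem : ∀ x ∈ X, P x ∈ X
  dist : ∀ x ∈ X, dist (P x) x = t
  orth : ∀ x ∈ X, Fx X (P x) (2 * R) = (Fx X x (2 * R))ᗮ
  dec : ∀ x ∈ X, ∃ α ∈ Fx X x (2 * R), ∃ β ∈ (Fx X x (2 * R))ᗮ, P x - x = α + β ∧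
    ‖α‖ = a ∧ ‖β‖ = ρ

theorem exists_data {X : Set (EuclideanSpace ℝ (Fin 4))} (hX : IsDelaunay r R X)
    (hc : Congruent X (2 * R)) {x0 : EuclideanSpace ℝ (Fin 4)} (hx0 : x0 ∈ X)
    {g0 : EuclideanSpace ℝ (Fin 4) ≃ᵢ EuclideanSpace ℝ (Fin 4)} (hg0 : g0 ∈ Nr X x0 (2 * R))
    (hne : g0 ≠ 1) : ∃ t a ρ P, Data X R t a ρ P := by
  classical
  have hRpos : 0 < R := lt_of_lt_of_le hX.pos hX.le
  have h2 : ∀ x ∈ X, finrank ℝ (Fx X x (2 * R)) = 2 := by
    intro x hx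
    obtain ⟨φ, hφ⟩ := hc x0 hx0 x hx
    have hφ' : Cg X (2 * R) φ x0 x := hφ
    have h1 := hφ'.conjNr hg0
    have h3 : φ * g0 * φ⁻¹ ≠ 1 := by
      intro h
      apply hne
      have : φ * g0 = φ := mul_inv_eq_one.mp h
      exact mul_eq_left.mp this
    obtain ⟨t, ht, h4, h5⟩ := two_le hX hc hx h1 h3
    have h6 := codim h1 h3
    have h7 := h4.trans (Submodule.finrank_mono h5)
    omega
  let P0 : Set (EuclideanSpace ℝ (Fin 4)) :=
    {z | z ∈ cluster X x0 (2 * R) ∧ ∃ g ∈ Nr X x0 (2 * R), g z ≠ z}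
  have hPfin : P0.Finite := (hX.finite x0 (2 * R)).subset (fun z hz => hz.1)
  have hPne : P0.Nonempty := by
    by_contra h
    apply hne
    apply rigid hX (Sym.fix hg0.1)
    intro z hz
    by_contra h2
    exact h ⟨z, hz, g0, hg0, h2⟩
  obtain ⟨y, ⟨hyC, g, hg, hgy⟩, hmin⟩ := Set.exists_min_image P0 (fun z => Dist.dist z x0) hPfin hPne
  have hyR : Dist.dist y x0 ≤ 2 * R := by
    have := hyC.2
    rwa [mem_closedBall] at this
  have hyx : y ≠ x0 := by
    rintro rfl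
    exact hgy (Sym.fix hg.1)
  obtain ⟨α, hα, β, hβ, hαβ⟩ := (Fx X x0 (2 * R)).exists_add_mem_mem_orthogonal (y - x0)
  have hnear0 : ∀ z ∈ X, Dist.dist z x0 < Dist.dist y x0 → z - x0 ∈ Fx X x0 (2 * R) := by
    intro z hz hzd h hh
    rw [lin_sub, Sym.fix hh.1]
    congr 1
    by_contra h3
    have h4 := hmin z ⟨⟨hz, by rw [mem_closedBall]; linarith⟩, h, hh, h3⟩
    linarith
  choose! ψ hψ using fun x (hx : x ∈ X) => hc x0 hx0 x hx
  have hψ' : ∀ x ∈ X, Cg X (2 * R) (ψ x) x0 x := fun x hx => hψ x hx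
  have hnear : ∀ x ∈ X, ∀ z ∈ X, Dist.dist z x < Dist.dist y x0 → z - x ∈ Fx X x (2 * R) := by
    intro x hx z hz hzd
    have h1 : z ∈ cluster X x (2 * R) := ⟨hz, by rw [mem_closedBall]; linarith⟩
    rw [← (hψ' x hx).2] at h1
    obtain ⟨w, hw, rfl⟩ := h1
    have h3 : Dist.dist w x0 < Dist.dist y x0 := by
      rwa [← (ψ x).dist_eq w x0, (hψ' x hx).1]
    have h4 := (hψ' x hx).mapFx (hnear0 w hw.1 h3)
    rwa [lin_sub, (hψ' x hx).1] at h4
  have hPmem : ∀ x ∈ X, ψ x y ∈ X := by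
    intro x hx
    have : ψ x y ∈ cluster X x (2 * R) := by
      rw [← (hψ' x hx).2]
      exact Set.mem_image_of_mem _ hyC
    exact this.1
  refine ⟨Dist.dist y x0, ‖α‖, ‖β‖, fun x => ψ x y, ?_⟩
  refine ⟨dist_pos.mpr hyx, hyR, ?_, norm_nonneg _, ?_, h2, hnear, hPmem, ?_, ?_, ?_⟩
  · rw [norm_pos_iff]
    rintro rfl
    apply hgy
    have h3 : y - x0 ∈ Fx X x0 (2 * R) := by rw [hαβ, add_zero]; exact hα
    have h4 := h3 g hg
    rw [lin_sub, Sym.fix hg.1] at h4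
    exact sub_left_injective h4
  · rw [dist_eq_norm, hαβ]
    have h3 : inner ℝ α β = (0 : ℝ) := (Submodule.mem_orthogonal _ _).mp hβ α hα
    have h4 := norm_add_sq_real α β
    rw [h3] at h4
    linarith
  · intro x hx
    have h3 := (ψ x).dist_eq y x0
    rwa [(hψ' x hx).1] at h3
  · intro x hx
    -- conjugate the element `g` to `x`
    set k := ψ x * g * (ψ x)⁻¹ with hk
    have hkN : k ∈ Nr X x (2 * R) := (hψ' x hx).conjNr hg
    set q := ψ x y with hq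
    have hqX : q ∈ X := hPmem x hx
    have hkq : k q = ψ x (g y) := by
      rw [hk, hq]
      have : (ψ x * g * (ψ x)⁻¹ * ψ x) y = (ψ x * g) y := by
        rw [inv_mul_cancel_right]
      exact this
    have hkqne : k q ≠ q := by
      rw [hkq, hq]
      intro h
      exact hgy ((ψ x).injective h)
    have hqd : Dist.dist q x = Dist.dist y x0 := by
      have h3 := (ψ x).dist_eq y x0
      rwa [(hψ' x hx).1] at h3
    have hqC : q ∈ cluster X x (2 * R) := ⟨hqX, by rw [mem_closedBall, hqd]; exact hyR⟩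
    have hqx : q - x ≠ 0 := by
      intro h
      have h1 : Dist.dist q x = 0 := by rw [dist_eq_norm, h, norm_zero]
      rw [hqd] at h1
      exact hyx (dist_eq_zero.mp h1)
    refine orth_of h2 hnear hx hqC hkN hkqne ?_
    have h4 : k q - q = lin k (q - x) - (q - x) := by
      rw [lin_sub, Sym.fix hkN.1]
      abel
    rw [← hqd, dist_eq_norm, dist_eq_norm, h4]
    exact hkN.2 _ hqx
  · intro x hx
    refine ⟨lin (ψ x) α, (hψ' x hx).mapFx hα, lin (ψ x) β, (hψ' x hx).mapOrth hβ, ?_,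
      LinearIsometryEquiv.norm_map _ _, LinearIsometryEquiv.norm_map _ _⟩
    rw [← map_add, ← hαβ, lin_sub, (hψ' x hx).1]

end Pool.Agent.H39.Clu
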