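import Pool.Agent.H39.Clu4

set_option autoImplicit false

namespace Pool.Agent.H39.Clu

open Metric Module

variable {r R : ℝ}

/-- position cell -/
noncomputable def pc (ε : ℝ) (v : EuclideanSpace ℝ (Fin 4)) : Fin 4 → Fin 325 := fun i =>
  ⟨min ((⌊2 * v i / ε⌋ + 162).toNat) 324, by omega⟩

theorem pc_close {ε : ℝ} (hε : 0 < ε) {v w : EuclideanSpace ℝ (Fin 4)} (hv : ‖v‖ ≤ 81 * ε)
    (hw : ‖w‖ ≤ 81 * ε) (h : pc ε v = pc ε w) : ‖v - w‖ < ε := by
  have bd : ∀ u : EuclideanSpace ℝ (Fin 4), ‖u‖ ≤ 81 * ε → ∀ i,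
      -162 ≤ ⌊2 * u i / ε⌋ ∧ ⌊2 * u i / ε⌋ ≤ 162 := by
    intro u hu i
    have h1 := PiLp.norm_apply_le u i
    rw [Real.norm_eq_abs] at h1
    have h2 := abs_le.mp (h1.trans hu)
    constructor
    · rw [Int.le_floor, le_div_iff₀ hε]
      push_cast
      linarith [h2.1]
    · have h3 : 2 * u i / ε ≤ 162 := by
        rw [div_le_iff₀ hε]
        linarith [h2.2]
      have h4 : ((⌊2 * u i / ε⌋ : ℤ) : ℝ) ≤ ((162 : ℤ) : ℝ) := (Int.floor_le _).trans (by
        push_cast
        exact h3)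
      exact_mod_cast h4
  have hco : ∀ i ∈ (Finset.univ : Finset (Fin 4)), (v i - w i) ^ 2 < (ε / 2) ^ 2 := by
    intro i _
    have h1 := bd v hv i
    have h2 := bd w hw i
    have h3 := congrArg Fin.val (congrFun h i)
    have h4 : min ((⌊2 * v i / ε⌋ + 162).toNat) 324 = min ((⌊2 * w i / ε⌋ + 162).toNat) 324 := h3
    have h5 : ⌊2 * v i / ε⌋ = ⌊2 * w i / ε⌋ := by omega
    have h6 := Int.abs_sub_lt_one_of_floor_eq_floor h5
    rw [← sub_div, abs_div, abs_of_pos hε, div_lt_one hε, ← mul_sub, abs_mul, abs_two] at h6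
    rw [← sq_abs]
    have h7 : |v i - w i| < ε / 2 := by linarith
    exact pow_lt_pow_left₀ h7 (abs_nonneg _) two_ne_zero
  have hne : (Finset.univ : Finset (Fin 4)).Nonempty := ⟨0, Finset.mem_univ _⟩
  have h1 := Finset.sum_lt_sum_of_nonempty hne hco
  rw [Finset.sum_const, Finset.card_univ, Fintype.card_fin] at h1
  have h2 : ‖v - w‖ ^ 2 < ε ^ 2 := by
    rw [EuclideanSpace.norm_sq_eq]
    have h3 : ∑ i, ‖(v - w) i‖ ^ 2 = ∑ i, (v i - w i) ^ 2 := by
      refine Finset.sum_congr rfl ?_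
      intro i _
      simp
    rw [h3]
    refine h1.trans_le ?_
    simp
    nlinarith
  exact lt_of_pow_lt_pow_left₀ 2 hε.le h2

/-- the type of the cells -/
abbrev Ty : Type := (Fin 4 → Fin 4 → Fin 9) × (Fin 4 → Fin 325) × (Fin 4 → Fin 325)

/-- the number of the cells -/
def nT : ℕ := 9 ^ 16 * 325 ^ 8

theorem card_Ty : Fintype.card Ty = nT := by
  simp only [Ty, Fintype.card_prod, Fintype.card_pi, Fintype.card_fin, Finset.prod_const,
    Finset.card_univ, nT]
  norm_num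

theorem pigeon (G : Subgroup (EuclideanSpace ℝ (Fin 4) ≃ᵢ EuclideanSpace ℝ (Fin 4)))
    [Finite G] (hG : 2 * nT < Nat.card G)
    (f : (EuclideanSpace ℝ (Fin 4) ≃ᵢ EuclideanSpace ℝ (Fin 4)) → Ty) :
    ∃ a ∈ G, ∃ b ∈ G, ∃ c ∈ G, a ≠ b ∧ a ≠ c ∧ b ≠ c ∧ f a = f b ∧ f a = f c := by
  classical
  have : Fintype G := Fintype.ofFinite G
  have h1 : Fintype.card Ty * 2 < Fintype.card G := by
    rw [card_Ty, ← Nat.card_eq_fintype_card]
    omega
  obtain ⟨y, hy⟩ := Fintype.exists_lt_card_fiber_of_mul_lt_card (fun g : G => f g.1) h1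
  obtain ⟨a, b, c, ha, hb, hc, hab, hac, hbc⟩ := Finset.two_lt_card_iff.mp hy
  simp only [Finset.mem_filter, Finset.mem_univ, true_and] at ha hb hc
  exact ⟨a.1, a.2, b.1, b.2, c.1, c.2, fun h => hab (Subtype.ext h), fun h => hac (Subtype.ext h),
    fun h => hbc (Subtype.ext h), ha.trans hb.symm, ha.trans hc.symm⟩

/-- a vector of a plane which is orthogonal to two independent vectors of the plane -/
theorem plane_zero {W : Submodule ℝ (EuclideanSpace ℝ (Fin 4))} (hW : finrank ℝ W = 2)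
    {u v k : EuclideanSpace ℝ (Fin 4)} (hu : u ∈ W) (hv : v ∈ W) (hk : k ∈ W)
    (hli : ∀ s t : ℝ, s • u + t • v = 0 → s = 0 ∧ t = 0)
    (h1 : inner ℝ u k = (0 : ℝ)) (h2 : inner ℝ v k = (0 : ℝ)) : k = 0 := by
  have hl : LinearIndependent ℝ ![u, v] := LinearIndependent.pair_iff.mpr hli
  have h3 : finrank ℝ (Submodule.span ℝ (Set.range ![u, v])) = 2 := by
    rw [finrank_span_eq_card hl]
    simp
  have hle : Submodule.span ℝ (Set.range ![u, v]) ≤ W := by
    rw [Submodule.span_le]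
    rintro _ ⟨i, rfl⟩
    fin_cases i
    · exact hu
    · exact hv
  have h4 : Submodule.span ℝ (Set.range ![u, v]) = W := by
    apply Submodule.eq_of_le_of_finrank_le hle
    omega
  rw [← h4] at hk
  have h5 : ∀ w ∈ Submodule.span ℝ (Set.range ![u, v]), inner ℝ w k = (0 : ℝ) := by
    intro w hw
    induction hw using Submodule.span_induction with
    | mem x hx =>
      obtain ⟨i, rfl⟩ := hx
      fin_cases i
      · exact h1
      · exact h2
    | zero => exact inner_zero_left _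
    | add x y _ _ hx hy => rw [inner_add_left, hx, hy, add_zero]
    | smul a x _ hx => rw [inner_smul_left, hx, mul_zero]
  exact inner_self_eq_zero.mp (h5 k hk)

/-- three distinct vectors of the same length -/
theorem indep3 {b1 b2 b3 : EuclideanSpace ℝ (Fin 4)} (h12 : b1 ≠ b2) (h13 : b1 ≠ b3)
    (h23 : b2 ≠ b3) (hn2 : ‖b2‖ = ‖b1‖) (hn3 : ‖b3‖ = ‖b1‖) (s t : ℝ)
    (h : s • (b2 - b1) + t • (b3 - b1) = 0) : s = 0 ∧ t = 0 := by
  set u := b2 - b1 with hu
  set v := b3 - b1 with hv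
  have hu0 : u ≠ 0 := sub_ne_zero.mpr h12.symm
  have hv0 : v ≠ 0 := sub_ne_zero.mpr h13.symm
  have e2 : 2 * inner ℝ b1 u + ‖u‖ ^ 2 = 0 := by
    have h1 := norm_add_sq_real b1 u
    have h2 : b1 + u = b2 := by rw [hu]; abel
    rw [h2, hn2] at h1
    linarith
  have e3 : 2 * inner ℝ b1 v + ‖v‖ ^ 2 = 0 := by
    have h1 := norm_add_sq_real b1 v
    have h2 : b1 + v = b3 := by rw [hv]; abel
    rw [h2, hn3] at h1
    linarith
  by_cases hs : s = 0
  · refine ⟨hs, ?_⟩
    rw [hs, zero_smul, zero_add] at h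
    exact (smul_eq_zero.mp h).resolve_right hv0
  · exfalso
    have h1 : u = (-(t / s)) • v := by
      have h2 : s • u = -(t • v) := eq_neg_of_add_eq_zero_left h
      have h3 : u = s⁻¹ • (s • u) := by rw [smul_smul, inv_mul_cancel₀ hs, one_smul]
      rw [h3, h2, smul_neg, smul_smul, neg_smul]
      congr 2
      rw [div_eq_inv_mul]
    set l := -(t / s) with hl
    have hvn : 0 < ‖v‖ ^ 2 := by
      have := norm_pos_iff.mpr hv0
      positivity
    rw [h1, inner_smul_right, norm_smul, mul_pow, Real.norm_eq_abs, sq_abs] at e2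
    have h2 : l * (l - 1) * ‖v‖ ^ 2 = 0 := by
      have : inner ℝ b1 v = -(‖v‖ ^ 2) / 2 := by linarith
      rw [this] at e2
      linarith
    have h3 : l * (l - 1) = 0 := (mul_eq_zero.mp h2).resolve_right hvn.ne'
    rcases mul_eq_zero.mp h3 with h4 | h4
    · rw [h4, zero_smul] at h1
      exact hu0 h1
    · have h5 : l = 1 := by linarith
      rw [h5, one_smul] at h1
      apply h23
      have : b2 - b1 = b3 - b1 := h1
      exact sub_left_injective this

theorem St_fin {d : ℕ} {X : Set (EuclideanSpace ℝ (Fin d))} (hX : IsDelaunay r R X)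
    (x : EuclideanSpace ℝ (Fin d)) : Finite (St X x (2 * R)) := by
  have hfin : Finite (Sym X x (2 * R)) := Sym.finite hX x
  exact Finite.of_injective (fun g : St X x (2 * R) => (⟨g.1, g.2.1⟩ : Sym X x (2 * R)))
      (fun g h hgh => Subtype.ext (congrArg (fun s : Sym X x (2 * R) => s.1) hgh))

end Pool.Agent.H39.Clu
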