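import Pool.Agent.H39.Clu5

set_option autoImplicit false

namespace Pool.Agent.H39.Clu

open Metric Module

variable {r R t a ρ : ℝ} {X : Set (EuclideanSpace ℝ (Fin 4))}
  {P : EuclideanSpace ℝ (Fin 4) → EuclideanSpace ℝ (Fin 4)}

theorem zero_of {W : Submodule ℝ (EuclideanSpace ℝ (Fin 4))} {v : EuclideanSpace ℝ (Fin 4)}
    (hv : v ∈ W) (hv' : v ∈ Wᗮ) : v = 0 :=
  inner_self_eq_zero.mp ((Submodule.mem_orthogonal _ _).mp hv' v hv)

theorem St_orth {x : EuclideanSpace ℝ (Fin 4)} {h : EuclideanSpace ℝ (Fin 4) ≃ᵢ EuclideanSpace ℝ (Fin 4)}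
    (hh : h ∈ St X x (2 * R)) {v : EuclideanSpace ℝ (Fin 4)} (hv : v ∈ (Fx X x (2 * R))ᗮ) :
    lin h v ∈ (Fx X x (2 * R))ᗮ := by
  rw [Submodule.mem_orthogonal] at hv ⊢
  intro u hu
  have h1 : inner ℝ u (lin h v) = inner ℝ u v := by
    conv_lhs => rw [← hh.2 u hu]
    exact LinearIsometryEquiv.inner_map_map _ _ _
  rw [h1, hv u hu]

theorem St_dec {x q α β : EuclideanSpace ℝ (Fin 4)}
    {h : EuclideanSpace ℝ (Fin 4) ≃ᵢ EuclideanSpace ℝ (Fin 4)}
    (hh : h ∈ St X x (2 * R)) (hα : α ∈ Fx X x (2 * R)) (hαβ : q - x = α + β) :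
    h q - x = α + lin h β := by
  have h1 := lin_sub h q x
  rw [Sym.fix hh.1, hαβ, map_add, hh.2 α hα] at h1
  exact h1.symm

theorem key0 (hD : Data X R t a ρ P) {x q α β : EuclideanSpace ℝ (Fin 4)} (hx : x ∈ X)
    (hq : q ∈ cluster X x (2 * R)) (hα : α ∈ Fx X x (2 * R)) (hβ : β ∈ (Fx X x (2 * R))ᗮ)
    (hαβ : q - x = α + β) (hβ0 : β ≠ 0)
    {h k : EuclideanSpace ℝ (Fin 4) ≃ᵢ EuclideanSpace ℝ (Fin 4)}
    (hh : h ∈ St X x (2 * R)) (hk : k ∈ St X x (2 * R)) (hne : h ≠ k) (hcell : cell h = cell k) :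
    lin h β ≠ lin k β ∧ (dist (h q) (k q) < t →
      Fx X q (2 * R) = (Fx X x (2 * R))ᗮ ∧ Fx X (h q) (2 * R) = (Fx X x (2 * R))ᗮ) := by
  have hgN : k⁻¹ * h ∈ Nr X x (2 * R) := ⟨mul_mem (inv_mem hk.1) hh.1, near_of_cell hcell⟩
  have hg1 : k⁻¹ * h ≠ 1 := by
    intro h1
    exact hne (inv_mul_eq_one.mp h1).symm
  have hb : lin h β ≠ lin k β := by
    intro h1
    have h2 : lin (k⁻¹ * h) β = β := by
      rw [lin_mul, h1, lin_inv_lin]
    exact hβ0 (zero_of (fix_mem hgN hg1 (hD.two x hx) h2) hβ)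
  have hpq : h q ≠ k q := by
    intro h1
    have h2 := St_dec hh hα hαβ
    have h3 := St_dec hk hα hαβ
    rw [h1] at h2
    exact hb (add_left_cancel (h2.symm.trans h3))
  refine ⟨hb, fun hd => ⟨?_, ?_⟩⟩
  · apply orth_of hD.two hD.near hx hq hgN
    · intro h1
      apply hpq
      have h2 := congrArg k h1
      rw [← IsometryEquiv.mul_apply, ← mul_assoc, mul_inv_cancel, one_mul] at h2
      exact h2
    · rw [← k.dist_eq, ← IsometryEquiv.mul_apply, ← mul_assoc, mul_inv_cancel, one_mul]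
      exact hd
  · have hgN' : k * h⁻¹ ∈ Nr X x (2 * R) := by
      refine ⟨mul_mem hk.1 (inv_mem hh.1), ?_⟩
      have h1 := (near_of_cell hcell.symm).conj h
      rwa [mul_inv_cancel_left] at h1
    have h1 : (k * h⁻¹) (h q) = k q := by
      rw [← IsometryEquiv.mul_apply, inv_mul_cancel_right]
    apply orth_of hD.two hD.near hx (Sym.maps hh.1 hq) hgN'
    · rw [h1]
      exact hpq.symm
    · rw [h1, dist_comm]
      exact hd

theorem finrank_orth (hD : Data X R t a ρ P) {x : EuclideanSpace ℝ (Fin 4)} (hx : x ∈ X) :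
    finrank ℝ (Fx X x (2 * R))ᗮ = 2 := by
  have h4 := Submodule.finrank_add_finrank_orthogonal (Fx X x (2 * R))
  rw [finrank_euclideanSpace_fin, hD.two x hx] at h4
  omega

/-- the key lemma -/
theorem key (hX : IsDelaunay r R X) (hD : Data X R t a ρ P)
    (hN : ∀ x ∈ X, 2 * nT < Nat.card (St X x (2 * R)))
    {x q α β : EuclideanSpace ℝ (Fin 4)} (hx : x ∈ X)
    (hq : q ∈ cluster X x (2 * R)) (hqd : dist q x ≤ 80 * t)
    (hα : α ∈ Fx X x (2 * R)) (hβ : β ∈ (Fx X x (2 * R))ᗮ)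
    (hαβ : q - x = α + β) (hβ0 : β ≠ 0) :
    Fx X q (2 * R) = (Fx X x (2 * R))ᗮ ∧ ‖β‖ = a := by
  have hfin : Finite (St X x (2 * R)) := St_fin hX x
  have htp := hD.tpos
  obtain ⟨h1, hh1, h2, hh2, h3, hh3, h12, h13, h23, f12, f13⟩ := pigeon (St X x (2 * R)) (hN x hx)
    (fun h => (cell h, pc t (h q - x), pc t (P (h q) - x)))
  have f23 : (fun h => (cell h, pc t (h q - x), pc t (P (h q) - x))) h2 =
    (fun h => (cell h, pc t (h q - x), pc t (P (h q) - x))) h3 := f12.symm.trans f13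
  -- closeness
  have hbd : ∀ h ∈ St X x (2 * R), ‖h q - x‖ ≤ 81 * t ∧ ‖P (h q) - x‖ ≤ 81 * t := by
    intro h hh
    have e1 : dist (h q) x = dist q x := by
      have := h.dist_eq q x
      rwa [Sym.fix hh.1] at this
    have e2 := hD.dist (h q) (Sym.maps hh.1 hq).1
    constructor
    · rw [← dist_eq_norm, e1]
      linarith
    · rw [← dist_eq_norm]
      have := dist_triangle (P (h q)) (h q) x
      rw [e1, e2] at this
      linarith
  have hcl : ∀ h ∈ St X x (2 * R), ∀ k ∈ St X x (2 * R),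
      (fun h => (cell h, pc t (h q - x), pc t (P (h q) - x))) h =
      (fun h => (cell h, pc t (h q - x), pc t (P (h q) - x))) k →
      cell h = cell k ∧ dist (h q) (k q) < t ∧ dist (P (h q)) (P (k q)) < t := by
    intro h hh k hk hf
    simp only [Prod.mk.injEq] at hf
    obtain ⟨c1, c2, c3⟩ := hf
    refine ⟨c1, ?_, ?_⟩
    · have := pc_close htp (hbd h hh).1 (hbd k hk).1 c2
      rwa [sub_sub_sub_cancel_right, ← dist_eq_norm] at this
    · have := pc_close htp (hbd h hh).2 (hbd k hk).2 c3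
      rwa [sub_sub_sub_cancel_right, ← dist_eq_norm] at this
  obtain ⟨c12, d12, p12⟩ := hcl h1 hh1 h2 hh2 f12
  obtain ⟨c13, d13, p13⟩ := hcl h1 hh1 h3 hh3 f13
  obtain ⟨c23, d23, p23⟩ := hcl h2 hh2 h3 hh3 f23
  have k12 := key0 hD hx hq hα hβ hαβ hβ0 hh1 hh2 h12 c12
  have k13 := key0 hD hx hq hα hβ hαβ hβ0 hh1 hh3 h13 c13
  have k23 := key0 hD hx hq hα hβ hαβ hβ0 hh2 hh3 h23 c23
  have k31 := key0 hD hx hq hα hβ hαβ hβ0 hh3 hh1 h13.symm c13.symm
  have F0 := (k12.2 d12).1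
  have F1 := (k12.2 d12).2
  have F2 := (k23.2 d23).2
  have F3 := (k31.2 (by rw [dist_comm]; exact d13)).2
  refine ⟨F0, ?_⟩
  have m1 := (Sym.maps hh1.1 hq).1
  have m2 := (Sym.maps hh2.1 hq).1
  have m3 := (Sym.maps hh3.1 hq).1
  obtain ⟨α1, hα1, β1, hβ1, e1, n1, -⟩ := hD.dec _ m1
  obtain ⟨α2, hα2, β2, hβ2, e2, n2, -⟩ := hD.dec _ m2
  obtain ⟨α3, hα3, β3, hβ3, e3, n3, -⟩ := hD.dec _ m3
  have o1 := hD.near _ (hD.mem _ m1) _ (hD.mem _ m2) (by rw [_root_.dist_comm]; exact p12)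
  have o2 := hD.near _ (hD.mem _ m1) _ (hD.mem _ m3) (by rw [_root_.dist_comm]; exact p13)
  rw [hD.orth _ m1, F1] at o1 o2
  rw [F1] at hα1 hβ1
  rw [F2] at hα2 hβ2
  rw [F3] at hα3 hβ3
  have g1 := St_dec hh1 hα hαβ
  have g2 := St_dec hh2 hα hαβ
  have g3 := St_dec hh3 hα hαβ
  have w1 := St_orth hh1 hβ
  have w2 := St_orth hh2 hβ
  have w3 := St_orth hh3 hβ
  have nb1 : ‖lin h1 β‖ = ‖β‖ := LinearIsometryEquiv.norm_map _ _
  have nb2 : ‖lin h2 β‖ = ‖β‖ := LinearIsometryEquiv.norm_map _ _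
  have nb3 : ‖lin h3 β‖ = ‖β‖ := LinearIsometryEquiv.norm_map _ _
  set b1 := lin h1 β with hb1
  set b2 := lin h2 β with hb2
  set b3 := lin h3 β with hb3
  have eq2 : b2 + α2 = b1 + α1 := by
    have hz : (b2 + α2) - (b1 + α1) = (P (h2 q) - P (h1 q)) - (β2 - β1) := by
      have r1 : P (h1 q) = (α1 + β1) + (α + b1) + x := by
        rw [← e1, ← g1]; abel
      have r2 : P (h2 q) = (α2 + β2) + (α + b2) + x := by
        rw [← e2, ← g2]; abel
      rw [r1, r2]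
      abel
    have hz1 : (b2 + α2) - (b1 + α1) ∈ (Fx X x (2 * R))ᗮ :=
      Submodule.sub_mem _ (Submodule.add_mem _ w2 hα2) (Submodule.add_mem _ w1 hα1)
    have hz2 : (b2 + α2) - (b1 + α1) ∈ (Fx X x (2 * R))ᗮᗮ := by
      rw [hz]
      exact Submodule.sub_mem _ o1 (Submodule.sub_mem _ hβ2 hβ1)
    exact sub_eq_zero.mp (zero_of hz1 hz2)
  have eq3 : b3 + α3 = b1 + α1 := by
    have hz : (b3 + α3) - (b1 + α1) = (P (h3 q) - P (h1 q)) - (β3 - β1) := by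
      have r1 : P (h1 q) = (α1 + β1) + (α + b1) + x := by
        rw [← e1, ← g1]; abel
      have r2 : P (h3 q) = (α3 + β3) + (α + b3) + x := by
        rw [← e3, ← g3]; abel
      rw [r1, r2]
      abel
    have hz1 : (b3 + α3) - (b1 + α1) ∈ (Fx X x (2 * R))ᗮ :=
      Submodule.sub_mem _ (Submodule.add_mem _ w3 hα3) (Submodule.add_mem _ w1 hα1)
    have hz2 : (b3 + α3) - (b1 + α1) ∈ (Fx X x (2 * R))ᗮᗮ := by
      rw [hz]
      exact Submodule.sub_mem _ o2 (Submodule.sub_mem _ hβ3 hβ1)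
    exact sub_eq_zero.mp (zero_of hz1 hz2)
  have inn : ∀ b' α' : EuclideanSpace ℝ (Fin 4), ‖b'‖ = ‖β‖ → ‖α'‖ = a → b' + α' = b1 + α1 →
      2 * inner ℝ b' (b1 + α1) = ‖b1 + α1‖ ^ 2 + ‖β‖ ^ 2 - a ^ 2 := by
    intro b' α' hb' hα' he
    have h5 := norm_sub_sq_real (b1 + α1) b'
    have h6 : b1 + α1 - b' = α' := by rw [← he]; abel
    rw [h6, hb', hα', real_inner_comm] at h5
    linarith
  have i1 := inn b1 α1 nb1 n1 rfl
  have i2 := inn b2 α2 nb2 n2 eq2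
  have i3 := inn b3 α3 nb3 n3 eq3
  have hk0 : b1 + α1 = 0 := by
    apply plane_zero (finrank_orth hD hx) (Submodule.sub_mem _ w2 w1) (Submodule.sub_mem _ w3 w1)
      (Submodule.add_mem _ w1 hα1)
      (indep3 k12.1 k13.1 k23.1 (nb2.trans nb1.symm) (nb3.trans nb1.symm))
    · rw [inner_sub_left]
      linarith
    · rw [inner_sub_left]
      linarith
  have h5 : b1 = -α1 := eq_neg_of_add_eq_zero_left hk0
  rw [← nb1, h5, norm_neg, n1]

/-- `ρ = a` -/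
theorem rho_eq (hX : IsDelaunay r R X) (hD : Data X R t a ρ P)
    (hN : ∀ x ∈ X, 2 * nT < Nat.card (St X x (2 * R))) {x : EuclideanSpace ℝ (Fin 4)}
    (hx : x ∈ X) : ρ = a := by
  obtain ⟨α, hα, β, hβ, e, n1, n2⟩ := hD.dec x hx
  have htp := hD.tpos
  have hd := hD.dist x hx
  have h1 := key hX hD hN hx (q := P x) ⟨hD.mem x hx, by rw [mem_closedBall, hd]; exact hD.tle⟩
    (by rw [hd]; linarith) hα hβ e (by
      intro h
      rw [h, norm_zero] at n2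
      have := hD.rpos
      linarith)
  rw [← n2]
  exact h1.2

/-- the points near `x` and `P x` -/
theorem two_circles (hX : IsDelaunay r R X) (hD : Data X R t a ρ P)
    (hN : ∀ x ∈ X, 2 * nT < Nat.card (St X x (2 * R)))
    {x p α β u w : EuclideanSpace ℝ (Fin 4)} (hx : x ∈ X)
    (hα : α ∈ Fx X x (2 * R)) (hβ : β ∈ (Fx X x (2 * R))ᗮ) (hP : P x - x = α + β)
    (hp : p ∈ cluster X x (2 * R)) (hp' : p ∈ cluster X (P x) (2 * R))
    (hd : dist p x ≤ 80 * t) (hd' : dist p (P x) ≤ 80 * t)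
    (hu : u ∈ Fx X x (2 * R)) (hw : w ∈ (Fx X x (2 * R))ᗮ) (huw : p - x = α + u + w) :
    (u = 0 ∨ ‖u‖ = ρ) ∧ (w = 0 ∨ ‖w‖ = ρ) ∧ (u = 0 ∨ w = 0) := by
  have ha := rho_eq hX hD hN hx
  have hy := hD.mem x hx
  have hFy := hD.orth x hx
  have hK1 : w ≠ 0 → Fx X p (2 * R) = (Fx X x (2 * R))ᗮ ∧ ‖w‖ = a := fun hw0 =>
    key hX hD hN hx hp hd (Submodule.add_mem _ hα hu) hw huw hw0
  have hK2 : u ≠ 0 → Fx X p (2 * R) = (Fx X (P x) (2 * R))ᗮ ∧ ‖u‖ = a := fun hu0 => by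
    refine key hX hD hN hy hp' hd' (α := w - β) ?_ ?_ ?_ hu0
    · rw [hFy]
      exact Submodule.sub_mem _ hw hβ
    · rw [hFy, Submodule.orthogonal_orthogonal]
      exact hu
    · have : p - P x = (p - x) - (P x - x) := by abel
      rw [this, huw, hP]
      abel
  refine ⟨?_, ?_, ?_⟩
  · by_cases h : u = 0
    · exact Or.inl h
    · exact Or.inr ((hK2 h).2.trans ha.symm)
  · by_cases h : w = 0
    · exact Or.inl h
    · exact Or.inr ((hK1 h).2.trans ha.symm)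
  · by_contra h
    push Not at h
    have h1 := (hK1 h.2).1
    have h2 := (hK2 h.1).1
    rw [hFy, h1] at h2
    apply h.2
    refine zero_of hw ?_
    rw [← h2]
    exact hw

end Pool.Agent.H39.Clu
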