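import Pool.Agent.H39.Clu6

set_option autoImplicit false

namespace Pool.Agent.H39.Clu

open Metric Module

variable {r R t a ρ : ℝ} {X : Set (EuclideanSpace ℝ (Fin 4))}
  {P : EuclideanSpace ℝ (Fin 4) → EuclideanSpace ℝ (Fin 4)}

theorem gap (hX : IsDelaunay r R X) (x : EuclideanSpace ℝ (Fin 4)) :
    ∃ δ : ℝ, 0 < δ ∧ ∀ z ∈ X, dist z x ≤ 2 * R + δ → dist z x ≤ 2 * R := by
  let B : Set (EuclideanSpace ℝ (Fin 4)) := {z ∈ X ∩ closedBall x (2 * R + 1) | 2 * R < dist z x}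
  have hB : B.Finite := (hX.finite x (2 * R + 1)).subset (fun z hz => hz.1)
  obtain ⟨δ, hδ0, hδ1, hδ⟩ : ∃ δ : ℝ, 0 < δ ∧ δ ≤ 1 ∧ ∀ z ∈ B, 2 * R + δ < dist z x := by
    rcases B.eq_empty_or_nonempty with h | h
    · refine ⟨1, one_pos, le_rfl, ?_⟩
      rw [h]
      intro z hz
      exact absurd hz (Set.notMem_empty z)
    · obtain ⟨b, hb, hbm⟩ := Set.exists_min_image B (fun z => dist z x) hB h
      have h1 : 2 * R < dist b x := hb.2
      refine ⟨min 1 ((dist b x - 2 * R) / 2), lt_min one_pos (by linarith), min_le_left _ _, ?_⟩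
      intro z hz
      have h2 := hbm z hz
      have h3 := min_le_right 1 ((dist b x - 2 * R) / 2)
      linarith
  refine ⟨δ, hδ0, ?_⟩
  intro z hz hd
  by_contra h
  push Not at h
  have := hδ z ⟨⟨hz, by rw [mem_closedBall]; linarith⟩, h⟩
  linarith

theorem pyth {F : Submodule ℝ (EuclideanSpace ℝ (Fin 4))} {u v : EuclideanSpace ℝ (Fin 4)}
    (hu : u ∈ F) (hv : v ∈ Fᗮ) : ‖u + v‖ ^ 2 = ‖u‖ ^ 2 + ‖v‖ ^ 2 := by
  have h1 := norm_add_sq_real u v
  rw [(Submodule.mem_orthogonal _ _).mp hv u hu] at h1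
  linarith

/-- the case where `R` is not much larger than `t` -/
theorem regime1 (hX : IsDelaunay r R X) (hD : Data X R t a ρ P)
    (hN : ∀ x ∈ X, 2 * nT < Nat.card (St X x (2 * R))) {x : EuclideanSpace ℝ (Fin 4)}
    (hx : x ∈ X) (hR : 2 * R ≤ 80 * t) : False := by
  obtain ⟨α, hα, β, hβ, e, n1, n2⟩ := hD.dec x hx
  have ha := rho_eq hX hD hN hx
  rw [← ha] at n1
  have hρ := hD.rpos
  have htp := hD.tpos
  have hRpos : 0 < R := lt_of_lt_of_le hX.pos hX.le
  have hsq := hD.sq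
  rw [← ha] at hsq
  have htle := hD.tle
  have hρR : ρ ^ 2 ≤ 2 * R ^ 2 := by nlinarith
  obtain ⟨δ1, hδ1, g1⟩ := gap hX x
  obtain ⟨δ2, hδ2, g2⟩ := gap hX (P x)
  obtain ⟨δ, hδ, hd1, hd2⟩ : ∃ δ : ℝ, 0 < δ ∧ δ ≤ δ1 ∧ δ ≤ δ2 :=
    ⟨min δ1 δ2, lt_min hδ1 hδ2, min_le_left _ _, min_le_right _ _⟩
  have hL : ρ ^ 2 < 2 * (R + δ) ^ 2 := by nlinarith
  obtain ⟨s, hs1, hs2⟩ : ∃ s : ℝ, 1 / 2 < s ∧ ((s - 1) ^ 2 + s ^ 2) * ρ ^ 2 = (R + δ) ^ 2 := by
    have h0 : 0 < 2 * (R + δ) ^ 2 / ρ ^ 2 - 1 := by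
      rw [sub_pos, lt_div_iff₀ (by positivity)]
      linarith
    have h1 := Real.sq_sqrt h0.le
    have h2 := Real.sqrt_pos.mpr h0
    refine ⟨(1 + √(2 * (R + δ) ^ 2 / ρ ^ 2 - 1)) / 2, by linarith, ?_⟩
    set m := √(2 * (R + δ) ^ 2 / ρ ^ 2 - 1) with hm
    have h3 : ((1 + m) / 2 - 1) ^ 2 + ((1 + m) / 2) ^ 2 = (m ^ 2 + 1) / 2 := by ring
    rw [h3, h1]
    field_simp
    ring
  obtain ⟨p, hpX, hpq⟩ := hX.covering (x + (1 - s) • α + s • β)
  rw [mem_closedBall] at hpq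
  have hqx : dist (x + (1 - s) • α + s • β) x = R + δ := by
    rw [dist_eq_norm]
    have h1 : x + (1 - s) • α + s • β - x = (1 - s) • α + s • β := by abel
    rw [h1]
    have h2 := pyth (Submodule.smul_mem _ (1 - s) hα) (Submodule.smul_mem _ s hβ)
    rw [norm_smul, norm_smul, mul_pow, mul_pow, n1, n2, Real.norm_eq_abs, Real.norm_eq_abs,
      sq_abs, sq_abs] at h2
    have h3 : ‖(1 - s) • α + s • β‖ ^ 2 = (R + δ) ^ 2 := by
      rw [h2, ← hs2]; ring
    exact (pow_left_inj₀ (norm_nonneg _) (by positivity) two_ne_zero).mp h3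
  have hqy : dist (x + (1 - s) • α + s • β) (P x) = R + δ := by
    rw [dist_eq_norm]
    have h0 : P x = x + (α + β) := by rw [← e]; abel
    have h1 : x + (1 - s) • α + s • β - P x = (-s) • α + (s - 1) • β := by
      rw [h0]
      module
    rw [h1]
    have h2 := pyth (Submodule.smul_mem _ (-s) hα) (Submodule.smul_mem _ (s - 1) hβ)
    rw [norm_smul, norm_smul, mul_pow, mul_pow, n1, n2, Real.norm_eq_abs, Real.norm_eq_abs,
      sq_abs, sq_abs] at h2
    have h3 : ‖(-s) • α + (s - 1) • β‖ ^ 2 = (R + δ) ^ 2 := by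
      rw [h2, ← hs2]; ring
    exact (pow_left_inj₀ (norm_nonneg _) (by positivity) two_ne_zero).mp h3
  have hpx : dist p x ≤ 2 * R := by
    apply g1 p hpX
    have := dist_triangle p (x + (1 - s) • α + s • β) x
    linarith
  have hpy : dist p (P x) ≤ 2 * R := by
    apply g2 p hpX
    have := dist_triangle p (x + (1 - s) • α + s • β) (P x)
    linarith
  obtain ⟨a', ha', b', hb', hab⟩ := (Fx X x (2 * R)).exists_add_mem_mem_orthogonal (p - x)
  have h1 := two_circles hX hD hN hx hα hβ e ⟨hpX, by rw [mem_closedBall]; exact hpx⟩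
    ⟨hpX, by rw [mem_closedBall]; exact hpy⟩ (hpx.trans hR) (hpy.trans hR)
    (Submodule.sub_mem _ ha' hα) hb' (by rw [hab]; abel)
  set u := a' - α with hu
  have hp : p - (x + (1 - s) • α + s • β) = (u + s • α) + (b' + (-s) • β) := by
    have : p = x + (a' + b') := by rw [← hab]; abel
    rw [this, hu]
    module
  have h2 := pyth (Submodule.add_mem _ (Submodule.sub_mem _ ha' hα) (Submodule.smul_mem _ s hα))
    (Submodule.add_mem _ hb' (Submodule.smul_mem _ (-s) hβ))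
  rw [← hu, ← hp, ← dist_eq_norm] at h2
  have hns : 0 ≤ s := by linarith
  have nα : ‖s • α‖ = s * ρ := by rw [norm_smul, n1, Real.norm_of_nonneg hns]
  have nβ : ‖(-s) • β‖ = s * ρ := by rw [norm_smul, n2, norm_neg, Real.norm_of_nonneg hns]
  have low : ∀ v w : EuclideanSpace ℝ (Fin 4), ‖v‖ = ρ → ‖w‖ = s * ρ →
      ((s - 1) * ρ) ^ 2 ≤ ‖v + w‖ ^ 2 := by
    intro v w hv hw
    have h3 := norm_sub_norm_le w (-v)
    have h4 := norm_sub_norm_le (-v) w
    rw [norm_neg, hv, hw, sub_neg_eq_add] at h3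
    rw [norm_neg, hv, hw] at h4
    have h5 : ‖-v - w‖ = ‖v + w‖ := by
      rw [← norm_neg]
      congr 1
      abel
    rw [h5] at h4
    rw [add_comm w v] at h3
    have h6 : |(s - 1) * ρ| ≤ ‖v + w‖ := by
      rw [abs_le]
      constructor <;> linarith
    rw [← sq_abs]
    exact pow_le_pow_left₀ (abs_nonneg _) h6 2
  have h3 : (R + δ) ^ 2 ≤ dist p (x + (1 - s) • α + s • β) ^ 2 := by
    rw [h2, ← hs2]
    obtain ⟨c1, c2, c3⟩ := h1
    rcases c3 with c | c
    · rw [c, zero_add, nα]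
      rcases c2 with c' | c'
      · rw [c', zero_add, nβ]
        nlinarith [sq_nonneg ρ]
      · have := low b' _ c' nβ
        nlinarith
    · rw [c, zero_add, nβ]
      rcases c1 with c' | c'
      · rw [c', zero_add, nα]
        nlinarith [sq_nonneg ρ]
      · have := low u _ c' nα
        nlinarith
  have h4 : dist p (x + (1 - s) • α + s • β) ^ 2 ≤ R ^ 2 :=
    pow_le_pow_left₀ dist_nonneg hpq 2
  nlinarith

/-- if `R` is much larger than `ρ` then there is a distance between `2ρ` and `2R - 2ρ` -/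
theorem exists_mid (hX : IsDelaunay r R X) (hρ : 0 < ρ) (hR : 40 * ρ < R) :
    ∃ z ∈ X, ∃ p ∈ X, 2 * ρ < dist p z ∧ dist p z ≤ 2 * R - 2 * ρ := by
  by_contra H
  push Not at H
  have hRpos : 0 < R := lt_of_lt_of_le hX.pos hX.le
  obtain ⟨x, hx, -⟩ := hX.covering 0
  have he : ‖(EuclideanSpace.single (0 : Fin 4) (1 : ℝ))‖ = 1 := by simp
  set e := (EuclideanSpace.single (0 : Fin 4) (1 : ℝ)) with hedef
  obtain ⟨p, hp, hpc⟩ := hX.covering (x + (R + 3 * ρ) • e)
  rw [mem_closedBall] at hpc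
  have hcx : dist (x + (R + 3 * ρ) • e) x = R + 3 * ρ := by
    rw [dist_eq_norm, add_sub_cancel_left, norm_smul, he, mul_one,
      Real.norm_of_nonneg (by positivity)]
  have h1 := dist_triangle p (x + (R + 3 * ρ) • e) x
  have h2 := dist_triangle_left (x + (R + 3 * ρ) • e) x p
  have h3 := H x hx p hp (by linarith)
  -- the orthogonal direction
  have hsp : Submodule.span ℝ {p - x} ≠ ⊤ := by
    intro h
    have h4 := finrank_span_le_card (R := ℝ) ({p - x} : Set (EuclideanSpace ℝ (Fin 4)))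
    rw [h, finrank_top, finrank_euclideanSpace_fin, Set.toFinset_singleton,
      Finset.card_singleton] at h4
    omega
  obtain ⟨n, hn, hn2⟩ := exists_unit_orth _ hsp
  have hpn : inner ℝ (p - x) n = (0 : ℝ) := hn2 _ (Submodule.mem_span_singleton_self _)
  obtain ⟨q, hq, hqc⟩ := hX.covering (x + (1 / 2 : ℝ) • (p - x) + (R / 2) • n)
  rw [mem_closedBall] at hqc
  set c := x + (1 / 2 : ℝ) • (p - x) + (R / 2) • n with hc
  have hl1 : (2 * R - 2 * ρ) ^ 2 < dist p x ^ 2 := by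
    apply pow_lt_pow_left₀ h3 (by linarith) two_ne_zero
  have hl2 : dist p x ^ 2 ≤ (2 * R + 3 * ρ) ^ 2 := by
    apply pow_le_pow_left₀ dist_nonneg (by linarith)
  have nc : ∀ σ : ℝ, σ ^ 2 = 1 → ‖(σ / 2) • (p - x) + (R / 2) • n‖ ^ 2 =
      dist p x ^ 2 / 4 + R ^ 2 / 4 := by
    intro σ hσ
    have h4 := norm_add_sq_real ((σ / 2) • (p - x)) ((R / 2) • n)
    rw [inner_smul_left, inner_smul_right, hpn, norm_smul, norm_smul, hn, mul_one, mul_pow,
      Real.norm_eq_abs, Real.norm_eq_abs, sq_abs, sq_abs, ← dist_eq_norm] at h4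
    rw [h4, div_pow, hσ]
    simp
    ring
  have big : (R + 3 * ρ) ^ 2 ≤ dist p x ^ 2 / 4 + R ^ 2 / 4 := by nlinarith
  have hc1 : R + 3 * ρ ≤ dist c x := by
    have h4 : c - x = ((1 : ℝ) / 2) • (p - x) + (R / 2) • n := by
      rw [hc]; abel
    rw [dist_eq_norm, h4]
    have h5 := nc 1 (by norm_num)
    apply le_of_sq_le_sq _ (norm_nonneg _) 
    rw [h5]
    exact big
  have hc2 : R + 3 * ρ ≤ dist c p := by
    have h4 : c - p = ((-1 : ℝ) / 2) • (p - x) + (R / 2) • n := by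
      rw [hc]; module
    rw [dist_eq_norm, h4]
    have h5 := nc (-1) (by norm_num)
    apply le_of_sq_le_sq _ (norm_nonneg _) 
    rw [h5]
    exact big
  have h4 := dist_triangle_left c x q
  have h5 := dist_triangle_left c p q
  have h6 := H x hx q hq (by linarith)
  have h7 := H p hp q hq (by linarith)
  -- the parallelogram law
  have h8 := parallelogram_law_with_norm ℝ (q - (x + (1 / 2 : ℝ) • (p - x))) ((1 / 2 : ℝ) • (p - x))
  have e1 : q - (x + (1 / 2 : ℝ) • (p - x)) + (1 / 2 : ℝ) • (p - x) = q - x := by abel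
  have e2 : q - (x + (1 / 2 : ℝ) • (p - x)) - (1 / 2 : ℝ) • (p - x) = q - p := by module
  rw [e1, e2, norm_smul, ← dist_eq_norm, ← dist_eq_norm, ← dist_eq_norm, ← dist_eq_norm] at h8
  have h9 : dist q (x + (1 / 2 : ℝ) • (p - x)) ≤ 3 * R / 2 := by
    have h10 := dist_triangle q c (x + (1 / 2 : ℝ) • (p - x))
    have h11 : dist c (x + (1 / 2 : ℝ) • (p - x)) = R / 2 := by
      rw [dist_eq_norm, hc, add_sub_cancel_left, norm_smul, hn, mul_one,
        Real.norm_of_nonneg (by positivity)]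
    linarith
  have h12 : dist q (x + (1 / 2 : ℝ) • (p - x)) ^ 2 ≤ (3 * R / 2) ^ 2 :=
    pow_le_pow_left₀ dist_nonneg h9 2
  have h13 : (2 * R - 2 * ρ) ^ 2 < dist q x ^ 2 := pow_lt_pow_left₀ h6 (by linarith) two_ne_zero
  have h14 : (2 * R - 2 * ρ) ^ 2 < dist q p ^ 2 := pow_lt_pow_left₀ h7 (by linarith) two_ne_zero
  have h15 : ‖(1 / 2 : ℝ)‖ = 1 / 2 := by norm_num
  rw [h15] at h8
  nlinarith

end Pool.Agent.H39.Clu
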