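import Pool.Agent.H39.Clu7

set_option autoImplicit false

namespace Pool.Agent.H39.Clu

open Metric Module

variable {r R t a ρ : ℝ} {X : Set (EuclideanSpace ℝ (Fin 4))}
  {P : EuclideanSpace ℝ (Fin 4) → EuclideanSpace ℝ (Fin 4)}

/-- the orbit of a point under the stabilizer stays close to the point -/
theorem orbit (hX : IsDelaunay r R X) (hD : Data X R t a ρ P)
    (hN : ∀ x ∈ X, 2 * nT < Nat.card (St X x (2 * R)))
    {x p α β : EuclideanSpace ℝ (Fin 4)} (hx : x ∈ X) (hp : p ∈ cluster X x (2 * R))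
    (hα : α ∈ Fx X x (2 * R)) (hβ : β ∈ (Fx X x (2 * R))ᗮ) (hαβ : p - x = α + β)
    {D : ℝ} (hDρ : 4 * ρ < D) (hgap : ∀ z ∈ X, ∀ z' ∈ X, dist z' z < D → dist z' z ≤ 2 * ρ)
    (hβD : ‖β‖ ≤ 2 * D) : ‖β‖ ≤ 2 * ρ := by
  have hρ := hD.rpos
  by_cases hβ0 : β = 0
  · rw [hβ0, norm_zero]
    positivity
  have hfin : Finite (St X x (2 * R)) := St_fin hX x
  have hnβ : 0 < ‖β‖ := norm_pos_iff.mpr hβ0
  obtain ⟨h, hh, k, hk, -, -, hne, -, -, hf, -⟩ := pigeon (St X x (2 * R)) (hN x hx)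
    (fun h => (cell h, pc (‖β‖ / 2) (lin h β), pc (‖β‖ / 2) 0))
  simp only [Prod.mk.injEq] at hf
  obtain ⟨c1, c2, -⟩ := hf
  have hcl : ‖lin h β - lin k β‖ < ‖β‖ / 2 := by
    apply pc_close (by positivity) _ _ c2
    · rw [LinearIsometryEquiv.norm_map]; linarith
    · rw [LinearIsometryEquiv.norm_map]; linarith
  obtain ⟨g, hg⟩ : ∃ g, g = k⁻¹ * h := ⟨_, rfl⟩
  have hgS : g ∈ St X x (2 * R) := by
    rw [hg]; exact mul_mem (inv_mem hk) hh
  have hgN : g ∈ Nr X x (2 * R) := ⟨hgS.1, by rw [hg]; exact near_of_cell c1⟩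
  have hg1 : g ≠ 1 := by
    rw [hg]
    intro h1
    exact hne (inv_mul_eq_one.mp h1).symm
  have hgβ : ‖lin g β - β‖ < D := by
    have h1 : lin g β - β = lin k⁻¹ (lin h β - lin k β) := by
      rw [map_sub, lin_inv_lin, hg, lin_mul]
    rw [h1, LinearIsometryEquiv.norm_map]
    linarith
  have hpow : ∀ m : ℕ, g ^ m ∈ St X x (2 * R) := fun m => pow_mem hgS m
  have hdist : ∀ m : ℕ, ‖β - lin (g ^ m) β‖ = dist ((g ^ m) p) p := by
    intro m
    have h1 := St_dec (hpow m) hα hαβ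
    have h2 : (g ^ m) p - p = -(β - lin (g ^ m) β) := by
      have h3 : (g ^ m) p - p = ((g ^ m) p - x) - (p - x) := by abel
      rw [h3, h1, hαβ]
      abel
    rw [dist_eq_norm, h2, norm_neg]
  have hstep : dist (g p) p ≤ 2 * ρ := by
    apply hgap p hp.1 _ (Sym.maps hgS.1 hp).1
    have h1 := hdist 1
    rw [pow_one] at h1
    rw [← h1, norm_sub_rev]
    exact hgβ
  have hall : ∀ m : ℕ, dist ((g ^ m) p) p ≤ 2 * ρ := by
    intro m
    induction m with
    | zero =>
      rw [pow_zero]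
      change dist p p ≤ 2 * ρ
      rw [dist_self]
      positivity
    | succ m ih =>
      apply hgap p hp.1 _ (Sym.maps (hpow (m + 1)).1 hp).1
      have h1 : dist ((g ^ (m + 1)) p) ((g ^ m) p) = dist (g p) p := by
        rw [pow_succ, IsometryEquiv.mul_apply, (g ^ m).dist_eq]
      have h2 := dist_triangle ((g ^ (m + 1)) p) ((g ^ m) p) p
      linarith
  -- `g` has finite order
  obtain ⟨n, hn, hgn⟩ : ∃ n : ℕ, 0 < n ∧ g ^ n = 1 := by
    have h1 : IsOfFinOrder (⟨g, hgS⟩ : St X x (2 * R)) := isOfFinOrder_of_finite _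
    obtain ⟨n, hn, h2⟩ := isOfFinOrder_iff_pow_eq_one.mp h1
    refine ⟨n, hn, ?_⟩
    have h3 := congrArg (fun s : St X x (2 * R) => s.1) h2
    exact h3
  have hs0 : ∑ m ∈ Finset.range n, lin (g ^ m) β = 0 := by
    apply zero_of (W := Fx X x (2 * R))
    · apply fix_mem hgN hg1 (hD.two x hx)
      rw [map_sum]
      have h1 : ∀ m ∈ Finset.range n, lin g (lin (g ^ m) β) = lin (g ^ (m + 1)) β := by
        intro m _
        rw [pow_succ', lin_mul]
      rw [Finset.sum_congr rfl h1]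
      have h2 := Finset.sum_range_succ (fun m => lin (g ^ m) β) n
      have h3 := Finset.sum_range_succ' (fun m => lin (g ^ m) β) n
      rw [h2] at h3
      simp only [hgn, pow_zero] at h3
      exact (add_right_cancel h3).symm
    · exact Submodule.sum_mem _ (fun m _ => St_orth (hpow m) hβ)
  have hsum : (n : ℝ) • β = ∑ m ∈ Finset.range n, (β - lin (g ^ m) β) := by
    rw [Finset.sum_sub_distrib, hs0, sub_zero, Finset.sum_const, Finset.card_range,
      Nat.cast_smul_eq_nsmul]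
  have hn' : (0 : ℝ) < n := Nat.cast_pos.mpr hn
  have h1 : (n : ℝ) * ‖β‖ ≤ n * (2 * ρ) := by
    have h2 := congrArg norm hsum
    rw [norm_smul, Real.norm_of_nonneg hn'.le] at h2
    rw [h2]
    refine (norm_sum_le _ _).trans ?_
    have h3 : ∀ m ∈ Finset.range n, ‖β - lin (g ^ m) β‖ ≤ 2 * ρ := fun m _ => by
      rw [hdist m]; exact hall m
    refine (Finset.sum_le_sum h3).trans ?_
    rw [Finset.sum_const, Finset.card_range, nsmul_eq_mul]
  exact le_of_mul_le_mul_left h1 hn'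

/-- the case where `R` is much larger than `ρ` -/
theorem regime2 (hX : IsDelaunay r R X) (hc : Congruent X (2 * R)) (hD : Data X R t a ρ P)
    (hN : ∀ x ∈ X, 2 * nT < Nat.card (St X x (2 * R))) {x : EuclideanSpace ℝ (Fin 4)}
    (hx : x ∈ X) (hR : 40 * ρ < R) : False := by
  have hρ := hD.rpos
  have htp := hD.tpos
  have ha := rho_eq hX hD hN hx
  have hsq := hD.sq
  rw [← ha] at hsq
  have ht1 : ρ ≤ t := by nlinarith
  have ht2 : t ≤ 2 * ρ := by nlinarith
  obtain ⟨z, hz, p0, hp0, hm1, hm2⟩ := exists_mid hX hρ hR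
  -- the smallest distance larger than `2ρ`
  let B : Set (EuclideanSpace ℝ (Fin 4)) := {p ∈ X ∩ closedBall x (2 * R) | 2 * ρ < dist p x}
  have hB : B.Finite := (hX.finite x (2 * R)).subset (fun z hz => hz.1)
  have hBne : ∃ p ∈ B, dist p x ≤ 2 * R - 2 * ρ := by
    obtain ⟨φ, hφ⟩ := hc z hz x hx
    have h1 : φ p0 ∈ cluster X x (2 * R) := by
      rw [← hφ.2]
      exact Set.mem_image_of_mem _ ⟨hp0, by rw [mem_closedBall]; linarith⟩
    have h2 : dist (φ p0) x = dist p0 z := by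
      have := φ.dist_eq p0 z
      rwa [hφ.1] at this
    exact ⟨φ p0, ⟨h1, by rw [h2]; exact hm1⟩, by rw [h2]; exact hm2⟩
  obtain ⟨p1, hp1, hp1d⟩ := hBne
  obtain ⟨p, hpB, hmin⟩ := Set.exists_min_image B (fun z => dist z x) hB ⟨p1, hp1⟩
  have hpC : p ∈ cluster X x (2 * R) := hpB.1
  have hpρ : 2 * ρ < dist p x := hpB.2
  obtain ⟨D, hDdef⟩ : ∃ D, D = dist p x := ⟨_, rfl⟩
  have hDle : D ≤ 2 * R - 2 * ρ := by
    rw [hDdef]
    exact (hmin p1 hp1).trans hp1d
  have hgap : ∀ z ∈ X, ∀ z' ∈ X, dist z' z < D → dist z' z ≤ 2 * ρ := by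
    intro z hz z' hz' hd
    by_contra hcon
    push Not at hcon
    obtain ⟨φ, hφ⟩ := hc z hz x hx
    have h1 : φ z' ∈ cluster X x (2 * R) := by
      rw [← hφ.2]
      exact Set.mem_image_of_mem _ ⟨hz', by rw [mem_closedBall]; linarith⟩
    have h2 : dist (φ z') x = dist z' z := by
      have := φ.dist_eq z' z
      rwa [hφ.1] at this
    have h3 := hmin (φ z') ⟨h1, by rw [h2]; exact hcon⟩
    rw [h2] at h3
    linarith
  obtain ⟨α, hα, β, hβ, e, n1, n2⟩ := hD.dec x hx
  rw [← ha] at n1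
  obtain ⟨a', ha', b', hb', hab⟩ := (Fx X x (2 * R)).exists_add_mem_mem_orthogonal (p - x)
  have hPd := hD.dist x hx
  have hpy : dist p (P x) ≤ D + t := by
    have := dist_triangle_right p (P x) x
    rw [hPd] at this
    linarith
  have hpyC : p ∈ cluster X (P x) (2 * R) := ⟨hpC.1, by rw [mem_closedBall]; linarith⟩
  by_cases hD4 : D ≤ 4 * ρ
  · have h1 := two_circles hX hD hN hx hα hβ e hpC hpyC (by rw [← hDdef]; linarith)
      (by linarith) (Submodule.sub_mem _ ha' hα) hb' (by rw [hab]; abel)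
    set u := a' - α with hu
    have h2 : p - x = α + (u + b') := by
      rw [hab, hu]; abel
    have h3 : dist p x ≤ ‖α‖ + (‖u‖ + ‖b'‖) := by
      rw [dist_eq_norm, h2]
      exact (norm_add_le _ _).trans (by linarith [norm_add_le u b'])
    have h4 : ‖u‖ + ‖b'‖ ≤ ρ := by
      obtain ⟨c1, c2, c3⟩ := h1
      rcases c3 with c | c
      · rw [c, norm_zero, zero_add]
        rcases c2 with c' | c'
        · rw [c', norm_zero]; exact hρ.le
        · exact c'.le
      · rw [c, norm_zero, add_zero]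
        rcases c1 with c' | c'
        · rw [c', norm_zero]; exact hρ.le
        · exact c'.le
    linarith
  · push Not at hD4
    have hpy2 := pyth ha' hb'
    rw [← hab, ← dist_eq_norm, ← hDdef] at hpy2
    have hDpos : 0 < D := by linarith
    have hb'D : ‖b'‖ ≤ D := by
      apply le_of_sq_le_sq _ hDpos.le
      nlinarith [sq_nonneg ‖a'‖]
    have ha'D : ‖a'‖ ≤ D := by
      apply le_of_sq_le_sq _ hDpos.le
      nlinarith [sq_nonneg ‖b'‖]
    have h1 := orbit hX hD hN hx hpC ha' hb' hab hD4 hgap (by linarith)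
    have hy := hD.mem x hx
    have hFy := hD.orth x hx
    have h2 : ‖a' - α‖ ≤ 2 * ρ := by
      refine orbit hX hD hN hy hpyC (α := b' - β) ?_ ?_ ?_ hD4 hgap ?_
      · rw [hFy]
        exact Submodule.sub_mem _ hb' hβ
      · rw [hFy, Submodule.orthogonal_orthogonal]
        exact Submodule.sub_mem _ ha' hα
      · have : p - P x = (p - x) - (P x - x) := by abel
        rw [this, hab, e]
        abel
      · have := norm_sub_le a' α
        linarith
    have h3 : ‖a'‖ ≤ 3 * ρ := by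
      have h4 : a' = (a' - α) + α := by abel
      rw [h4]
      refine (norm_add_le _ _).trans ?_
      linarith
    have h4 : ‖a'‖ ^ 2 ≤ (3 * ρ) ^ 2 := pow_le_pow_left₀ (norm_nonneg _) h3 2
    have h5 : ‖b'‖ ^ 2 ≤ (2 * ρ) ^ 2 := pow_le_pow_left₀ (norm_nonneg _) h1 2
    nlinarith

/-- the bound for `E^4` -/
theorem bound4 (hX : IsDelaunay r R X) (hc : Congruent X (2 * R))
    {x : EuclideanSpace ℝ (Fin 4)} (hx : x ∈ X) :
    Nat.card (Sym X x (2 * R)) ≤ 9 ^ 16 * (2 * nT) := by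
  by_contra hcon
  push Not at hcon
  have hcount : ∀ x : EuclideanSpace ℝ (Fin 4),
      Nat.card (Sym X x (2 * R)) ≤ 9 ^ 16 * Nat.card (St X x (2 * R)) := by
    intro x
    have hfin : Finite (St X x (2 * R)) := St_fin hX x
    have h1 := count (Sym X x (2 * R)) (St X x (2 * R)) (by
      intro g hg k hk hgk
      exact Nr_sub_St ⟨mul_mem (inv_mem hk) hg, near_of_cell hgk⟩)
    exact h1
  have hx1 : 2 * nT < Nat.card (St X x (2 * R)) := by
    have h1 := hcount x
    by_contra h2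
    push Not at h2
    have h3 := Nat.mul_le_mul_left (9 ^ 16) h2
    omega
  have hN : ∀ x ∈ X, 2 * nT < Nat.card (St X x (2 * R)) := by
    intro z hz
    obtain ⟨φ, hφ⟩ := hc x hx z hz
    have hφ' : Cg X (2 * R) φ x z := hφ
    exact hx1.trans_le (hφ'.card_le hX)
  have hfin : Finite (St X x (2 * R)) := St_fin hX x
  obtain ⟨h, hh, k, hk, -, -, hne, -, -, hf, -⟩ := pigeon (St X x (2 * R)) hx1
    (fun h => (cell h, pc 1 0, pc 1 0))
  simp only [Prod.mk.injEq] at hf
  have hgN : k⁻¹ * h ∈ Nr X x (2 * R) := ⟨mul_mem (inv_mem hk.1) hh.1, near_of_cell hf.1⟩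
  have hg1 : k⁻¹ * h ≠ 1 := by
    intro h1
    exact hne (inv_mul_eq_one.mp h1).symm
  obtain ⟨t, a, ρ, P, hD⟩ := exists_data hX hc hx hgN hg1
  by_cases hR : 40 * ρ < R
  · exact regime2 hX hc hD hN hx hR
  · push Not at hR
    apply regime1 hX hD hN hx
    have ha := rho_eq hX hD hN hx
    have hsq := hD.sq
    rw [← ha] at hsq
    have htp := hD.tpos
    have hρ := hD.rpos
    have ht1 : ρ ≤ t := by nlinarith
    linarith

end Pool.Agent.H39.Clu
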